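import Pool.Agent.W773.BRA.F
import Pool.Agent.H789R2.FR.Smooth
import Pool.Agent.Helper890.Cov.JP
set_option autoImplicit false

/-! Kernels of products of two annular multipliers. -/

namespace Pool.Agent.W774.TB

open Set Filter MeasureTheory Metric
open scoped Topology ContDiff FourierTransform ENNReal RealInnerProductSpace

/-- Euclidean space -/
abbrev E (n : ℕ) := EuclideanSpace ℝ (Fin n)

variable {n : ℕ}

/-- half the dimension of the sphere -/
noncomputable def dd (n : ℕ) : ℝ := ((n : ℝ) - 1) / 2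

lemma dd_pos (hn : 2 ≤ n) : 0 < dd n := by
  have : (2 : ℝ) ≤ n := by exact_mod_cast hn
  unfold dd
  linarith

/-- decay of the Fourier transform of the surface measure -/
lemma sph_bound (hn : 2 ≤ n) : ∃ C : ℝ, 0 < C ∧ ∀ x : E n,
    ‖Pool.Agent.H789R2.FR.T (fun _ : E n => (1 : ℂ)) x‖ ≤ C * (1 + ‖x‖) ^ (-dd n) := by
  obtain ⟨C, hC, H⟩ := Pool.Agent.H789R2.FR.decay n hn
  have := Pool.Agent.H789R2.FR.sg_finite n
  set t : ℝ := (Pool.Agent.H789R2.FR.sg n).real univ with ht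
  have ht0 : 0 ≤ t := measureReal_nonneg
  have hd := dd_pos hn
  have hT : ∀ x : E n, ‖Pool.Agent.H789R2.FR.T (fun _ : E n => (1 : ℂ)) x‖ ≤ t := by
    intro x
    unfold Pool.Agent.H789R2.FR.T
    have := norm_integral_le_of_norm_le_const (μ := Pool.Agent.H789R2.FR.sg n)
      (f := fun w : E n => Complex.exp (-((⟪x, w⟫ : ℝ) : ℂ) * Complex.I) * (1 : ℂ)) (C := 1)
      (Eventually.of_forall fun w => by
        have : -((⟪x, w⟫ : ℝ) : ℂ) * Complex.I = ((-⟪x, w⟫ : ℝ) : ℂ) * Complex.I := by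
          push_cast; ring
        rw [this, norm_mul, Complex.norm_exp_ofReal_mul_I]
        simp)
    simpa using this
  refine ⟨(C + t) * 2 ^ dd n, by positivity, fun x => ?_⟩
  rcases le_or_gt 1 ‖x‖ with h1 | h1
  · have hx : x ≠ 0 := by
      intro h; rw [h, norm_zero] at h1; linarith
    have h2 := H x hx
    have e : -((n : ℝ) - 1) / 2 = -dd n := by unfold dd; ring
    rw [e] at h2
    refine h2.trans ?_
    have h3 : ‖x‖ ^ (-dd n) ≤ 2 ^ dd n * (1 + ‖x‖) ^ (-dd n) := by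
      have h4 : ((1 + ‖x‖) / 2) ^ (-dd n) = 2 ^ dd n * (1 + ‖x‖) ^ (-dd n) := by
        rw [Real.div_rpow (by positivity) (by norm_num), Real.rpow_neg (by norm_num : (0:ℝ) ≤ 2)]
        field_simp
      rw [← h4]
      apply Real.rpow_le_rpow_of_nonpos (by positivity) (by linarith) (by linarith)
    have h5 : 0 ≤ t * (2 ^ dd n * (1 + ‖x‖) ^ (-dd n)) := by positivity
    nlinarith
  · refine (hT x).trans ?_
    have h2 : (1 : ℝ) ≤ 2 ^ dd n * (1 + ‖x‖) ^ (-dd n) := by
      rw [Real.rpow_neg (by positivity), ← div_eq_mul_inv, one_le_div (by positivity)]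
      exact Real.rpow_le_rpow (by positivity) (by linarith) hd.le
    calc t ≤ (C + t) * 1 := by linarith
      _ ≤ (C + t) * (2 ^ dd n * (1 + ‖x‖) ^ (-dd n)) := by
          have : 0 ≤ C + t := by positivity
          gcongr
      _ = _ := by ring

/-- character integral over the sphere -/
lemma sph_char (r : ℝ) (z : E n) :
    ∫ v : sphere (0 : E n) 1, (Real.fourierChar ⟪r • (v : E n), z⟫ : ℂ)
      ∂(Pool.Agent.Helper890.Cov.sph n) =
    Pool.Agent.H789R2.FR.T (fun _ : E n => (1 : ℂ)) (-(2 * Real.pi * r) • z) := by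
  unfold Pool.Agent.H789R2.FR.T Pool.Agent.H789R2.FR.sg Pool.Agent.Helper890.Cov.sph
  rw [integral_map measurable_subtype_coe.aemeasurable]
  · apply integral_congr_ae
    filter_upwards with v
    rw [Real.fourierChar_apply, mul_one]
    congr 1
    rw [real_inner_smul_left, real_inner_smul_left, real_inner_comm]
    push_cast
    ring
  · apply Measurable.aestronglyMeasurable
    have : Continuous (fun w : E n => Complex.exp (-((⟪-(2 * Real.pi * r) • z, w⟫ : ℝ) : ℂ) *
      Complex.I) * 1) := by fun_prop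
    exact this.measurable

/-- oscillatory integral of a radial function -/
lemma osc (hn : 2 ≤ n) {a : ℝ → ℂ} (ha : Measurable a) {M R : ℝ} (hM : ∀ r, ‖a r‖ ≤ M)
    (hR : ∀ r, R < r → a r = 0) (z : E n) :
    ∫ ξ : E n, (Real.fourierChar ⟪ξ, z⟫ : ℂ) * a ‖ξ‖ =
      ∫ r in Ioi (0 : ℝ), (r ^ (n - 1) : ℝ) • (a r *
        Pool.Agent.H789R2.FR.T (fun _ : E n => (1 : ℂ)) (-(2 * Real.pi * r) • z)) := by
  have hM0 : 0 ≤ M := (norm_nonneg _).trans (hM 0)
  have hchc : Continuous (fun ξ : E n => (Real.fourierChar ⟪ξ, z⟫ : ℂ)) :=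
    continuous_subtype_val.comp (Real.continuous_fourierChar.comp (by fun_prop))
  have hint : Integrable (fun ξ : E n => (Real.fourierChar ⟪ξ, z⟫ : ℂ) * a ‖ξ‖) := by
    have h1 : Integrable ((closedBall (0 : E n) R).indicator (fun _ => M)) :=
      (integrable_indicator_iff measurableSet_closedBall).2
        (integrableOn_const (measure_closedBall_lt_top.ne))
    refine h1.mono' (hchc.measurable.mul (ha.comp measurable_norm)).aestronglyMeasurable ?_
    filter_upwards with ξ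
    by_cases hξ : ξ ∈ closedBall (0 : E n) R
    · rw [indicator_of_mem hξ, norm_mul, Circle.norm_coe, one_mul]
      exact hM _
    · rw [indicator_of_notMem hξ]
      rw [mem_closedBall_zero_iff, not_le] at hξ
      rw [hR _ hξ]
      simp
  rw [Pool.Agent.Helper890.Cov.JP.polar_bochner hn _ hint]
  have : IsFiniteMeasure (Pool.Agent.Helper890.Cov.sph n) := by
    unfold Pool.Agent.Helper890.Cov.sph
    infer_instance
  have e1 : ∀ v : sphere (0 : E n) 1, (∫ r in Ioi (0 : ℝ), r ^ (n - 1) •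
      ((Real.fourierChar ⟪r • (v : E n), z⟫ : ℂ) * a ‖r • (v : E n)‖)) =
      ∫ r in Ioi (0 : ℝ), r ^ (n - 1) • ((Real.fourierChar ⟪r • (v : E n), z⟫ : ℂ) * a r) := by
    intro v
    refine setIntegral_congr_fun measurableSet_Ioi fun r hr => ?_
    have hv : ‖(v : E n)‖ = 1 := by simp
    simp only [norm_smul, hv, Real.norm_eq_abs, abs_of_pos (show (0 : ℝ) < r from hr), mul_one]
  simp_rw [e1]
  rw [integral_integral_swap]
  · refine setIntegral_congr_fun measurableSet_Ioi fun r _ => ?_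
    rw [integral_smul, integral_mul_const, sph_char, mul_comm]
  · -- integrability on the product
    have h1 : Integrable ((Iic R).indicator (fun r : ℝ => r ^ (n - 1) * M))
        ((volume : Measure ℝ).restrict (Ioi 0)) := by
      have h2 : IntegrableOn (fun r : ℝ => r ^ (n - 1) * M) (Icc 0 R) :=
        (by fun_prop : Continuous fun r : ℝ => r ^ (n - 1) * M).integrableOn_Icc
      rw [integrable_indicator_iff measurableSet_Iic]
      unfold IntegrableOn
      rw [Measure.restrict_restrict measurableSet_Iic]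
      exact h2.mono_set (fun r hr => ⟨le_of_lt hr.2, hr.1⟩)
    have h3 : Integrable (fun z : sphere (0 : E n) 1 × ℝ =>
        (1 : ℝ) * (Iic R).indicator (fun r : ℝ => r ^ (n - 1) * M) z.2)
        ((Pool.Agent.Helper890.Cov.sph n).prod ((volume : Measure ℝ).restrict (Ioi 0))) :=
      Integrable.mul_prod (integrable_const (1 : ℝ)) h1
    refine h3.mono' ?_ ?_
    · apply Measurable.aestronglyMeasurable
      change Measurable ((fun p : sphere (0 : E n) 1 × ℝ => (p.2 ^ (n - 1) : ℝ)) •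
        (fun p : sphere (0 : E n) 1 × ℝ =>
        ((Real.fourierChar ⟪p.2 • (p.1 : E n), z⟫ : ℂ) * a p.2)))
      apply Measurable.smul
      · exact measurable_snd.pow_const _
      · apply Measurable.mul
        · have : Continuous (fun p : sphere (0 : E n) 1 × ℝ =>
              (Real.fourierChar ⟪p.2 • (p.1 : E n), z⟫ : ℂ)) :=
            continuous_subtype_val.comp (Real.continuous_fourierChar.comp (by fun_prop))
          exact this.measurable
        · exact ha.comp measurable_snd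
    · have h4 : ∀ᵐ p ∂((Pool.Agent.Helper890.Cov.sph n).prod
          ((volume : Measure ℝ).restrict (Ioi 0))), p.2 ∈ Ioi (0 : ℝ) :=
        Measure.quasiMeasurePreserving_snd.ae (ae_restrict_mem measurableSet_Ioi)
      filter_upwards [h4] with p hp
      have hp0 : (0 : ℝ) < p.2 := hp
      simp only [Function.uncurry_def, one_mul]
      rw [norm_smul, norm_mul, Circle.norm_coe, one_mul, Real.norm_eq_abs,
        abs_of_nonneg (by positivity)]
      by_cases h5 : p.2 ∈ Iic R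
      · rw [indicator_of_mem h5]
        gcongr
        exact hM _
      · rw [indicator_of_notMem h5, hR _ (not_le.1 h5)]
        simp

/-- product of two annular multipliers -/
noncomputable def kap (h : ℝ → ℝ) (N ρ ρ' : ℝ) (z : E n) : ℂ :=
  ∫ ξ : E n, (Real.fourierChar ⟪ξ, z⟫ : ℂ) *
    (Pool.Agent.W773.BRA.prof h N ρ ξ * Pool.Agent.W773.BRA.prof h N ρ' ξ)

/-- measure of the set of radii in an annulus -/
lemma shell_len {N ρ : ℝ} (hN : 1 ≤ N) (hρ : 0 < ρ) :
    volume {r : ℝ | 0 < r ∧ 1 / 2 ≤ N * (1 - r ^ 2 / ρ ^ 2) ∧ N * (1 - r ^ 2 / ρ ^ 2) ≤ 2} ≤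
      ENNReal.ofReal (2 * ρ / N) := by
  have hN0 : 0 < N := by linarith
  have hsub : {r : ℝ | 0 < r ∧ 1 / 2 ≤ N * (1 - r ^ 2 / ρ ^ 2) ∧ N * (1 - r ^ 2 / ρ ^ 2) ≤ 2} ⊆
      Icc (ρ - 2 * ρ / N) ρ := by
    rintro r ⟨hr, h1, h2⟩
    have h3 : r ^ 2 / ρ ^ 2 ≤ 1 := by
      by_contra hcon
      rw [not_le] at hcon
      nlinarith
    have h4 : r ≤ ρ := by
      rw [div_le_one (by positivity)] at h3
      exact le_of_sq_le_sq h3 hρ.le
    refine ⟨?_, h4⟩
    have h5 : 1 - r ^ 2 / ρ ^ 2 ≤ 2 / N := by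
      rw [le_div_iff₀ hN0]; linarith
    have h6 : r ^ 2 / ρ ^ 2 = (r / ρ) ^ 2 := by rw [div_pow]
    have h7 : r / ρ ≤ 1 := by rw [div_le_one hρ]; exact h4
    have h8 : 0 < r / ρ := by positivity
    have h9 : (r / ρ) ^ 2 ≤ r / ρ := by nlinarith
    have h10 : 1 - r / ρ ≤ 2 / N := by rw [h6] at h5; linarith
    have h11 : ρ * (1 - r / ρ) ≤ ρ * (2 / N) := by gcongr
    have h12 : ρ * (1 - r / ρ) = ρ - r := by field_simp
    rw [h12] at h11
    have : ρ * (2 / N) = 2 * ρ / N := by ring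
    linarith
  refine (measure_mono hsub).trans ?_
  rw [Real.volume_Icc]
  apply ENNReal.ofReal_le_ofReal
  linarith

lemma kap_bound (hn : 2 ≤ n) {h : ℝ → ℝ} (hh : Pool.Agent.W773.BRA.Bmp h) {M : ℝ}
    (hM : ∀ u, |h u| ≤ M) : ∃ C : ℝ, 0 < C ∧ ∀ N R ρ ρ' : ℝ, 1 ≤ N → 0 < ρ → ρ ≤ R → 0 < ρ' →
    ρ' ≤ R → ∀ z : E n,
    ‖kap h N ρ ρ' z‖ ≤ C * (R ^ n / N) * (1 + R * ‖z‖) ^ (-dd n) := by
  obtain ⟨C, hC, H⟩ := sph_bound hn
  have hM0 : 0 ≤ M := (abs_nonneg _).trans (hM 0)
  have hd := dd_pos hn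
  refine ⟨2 * C * (M ^ 2 + 1), by positivity, fun N R ρ ρ' hN hρ hρR hρ' hρR' z => ?_⟩
  have hN0 : 0 < N := by linarith
  have hR0 : 0 < R := hρ.trans_le hρR
  set a : ℝ → ℂ := fun r => ((h (N * (1 - r ^ 2 / ρ ^ 2)) : ℝ) : ℂ) *
    ((h (N * (1 - r ^ 2 / ρ' ^ 2)) : ℝ) : ℂ) with ha
  have ham : Measurable a := by
    have h1 : Continuous h := hh.1.continuous
    apply Continuous.measurable
    fun_prop
  have haM : ∀ r, ‖a r‖ ≤ M ^ 2 := by
    intro r
    rw [ha]
    simp only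
    rw [norm_mul, Complex.norm_real, Complex.norm_real, Real.norm_eq_abs, Real.norm_eq_abs,
      pow_two M]
    exact mul_le_mul (hM _) (hM _) (abs_nonneg _) hM0
  set S : Set ℝ := {r : ℝ | 0 < r ∧ 1 / 2 ≤ N * (1 - r ^ 2 / ρ ^ 2) ∧
    N * (1 - r ^ 2 / ρ ^ 2) ≤ 2} with hS
  have hSm : MeasurableSet S := by
    have h1 : Measurable (fun r : ℝ => N * (1 - r ^ 2 / ρ ^ 2)) := by fun_prop
    exact (measurableSet_lt measurable_const measurable_id).inter
      ((measurableSet_le measurable_const h1).inter (measurableSet_le h1 measurable_const))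
  have haS : ∀ r, 0 < r → a r ≠ 0 → r ∈ S := by
    intro r hr hne
    have h1 : h (N * (1 - r ^ 2 / ρ ^ 2)) ≠ 0 := by
      intro h0
      apply hne
      rw [ha]; simp only; rw [h0]; simp
    by_contra hcon
    exact h1 (hh.2 _ fun hm => hcon ⟨hr, hm.1, hm.2⟩)
  have hSR : ∀ r ∈ S, r ≤ R := by
    rintro r ⟨hr, h1, _⟩
    have h3 : r ^ 2 / ρ ^ 2 ≤ 1 := by
      by_contra hcon
      rw [not_le] at hcon
      nlinarith
    rw [div_le_one (by positivity)] at h3
    exact (le_of_sq_le_sq h3 hρ.le).trans hρR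
  have haR : ∀ r, R < r → a r = 0 := by
    intro r hr
    by_contra hne
    exact absurd (hSR r (haS r (hR0.trans hr) hne)) (not_le.2 hr)
  have e0 : kap h N ρ ρ' z = ∫ ξ : E n, (Real.fourierChar ⟪ξ, z⟫ : ℂ) * a ‖ξ‖ := rfl
  rw [e0, osc hn ham haM haR z]
  have hpt : ∀ r ∈ S, ‖(r ^ (n - 1) : ℝ) • (a r *
      Pool.Agent.H789R2.FR.T (fun _ : E n => (1 : ℂ)) (-(2 * Real.pi * r) • z))‖ ≤
      C * M ^ 2 * (R ^ (n - 1) * (1 + R * ‖z‖) ^ (-dd n)) := by
    intro r hr
    have hr0 : 0 < r := hr.1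
    have hrR := hSR r hr
    rw [norm_smul, norm_mul, Real.norm_eq_abs, abs_of_nonneg (by positivity)]
    have h1 := H (-(2 * Real.pi * r) • z)
    have h2 : ‖-(2 * Real.pi * r) • z‖ = 2 * Real.pi * r * ‖z‖ := by
      rw [norm_smul, norm_neg, Real.norm_eq_abs, abs_of_nonneg (by positivity)]
    rw [h2] at h1
    have hz := norm_nonneg z
    have h3 : (1 + 2 * Real.pi * r * ‖z‖) ^ (-dd n) ≤ (1 + r * ‖z‖) ^ (-dd n) := by
      apply Real.rpow_le_rpow_of_nonpos (by positivity) _ (by linarith)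
      have h4 : 0 ≤ r * ‖z‖ := by positivity
      nlinarith [Real.pi_gt_three]
    have h5 : r ^ (n - 1) * (1 + r * ‖z‖) ^ (-dd n) ≤ R ^ (n - 1) * (1 + R * ‖z‖) ^ (-dd n) := by
      have e1 : ∀ s : ℝ, 0 < s → s ^ (n - 1) * (1 + s * ‖z‖) ^ (-dd n) =
          (s ^ 2 / (1 + s * ‖z‖)) ^ dd n := by
        intro s hs
        rw [Real.div_rpow (by positivity) (by positivity), Real.rpow_neg (by positivity),
          ← Real.rpow_natCast s 2, ← Real.rpow_mul hs.le, ← Real.rpow_natCast s (n - 1)]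
        have : ((n - 1 : ℕ) : ℝ) = ((2 : ℕ) : ℝ) * dd n := by
          rw [Nat.cast_sub (by omega)]
          unfold dd
          push_cast
          ring
        rw [this, div_eq_mul_inv]
      rw [e1 r hr0, e1 R hR0]
      apply Real.rpow_le_rpow (by positivity) _ hd.le
      rw [div_le_div_iff₀ (by positivity) (by positivity)]
      have h6 : r ^ 2 ≤ R ^ 2 := by gcongr
      have h7 : r ^ 2 * (R * ‖z‖) ≤ R ^ 2 * (r * ‖z‖) := by
        have h8 : 0 ≤ r * R * ‖z‖ := by positivity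
        nlinarith [mul_nonneg h8 (sub_nonneg.2 hrR)]
      nlinarith
    calc r ^ (n - 1) * (‖a r‖ *
        ‖Pool.Agent.H789R2.FR.T (fun _ : E n => (1 : ℂ)) (-(2 * Real.pi * r) • z)‖)
        ≤ r ^ (n - 1) * (M ^ 2 * (C * (1 + r * ‖z‖) ^ (-dd n))) := by
          gcongr
          · exact haM r
          · exact h1.trans (mul_le_mul_of_nonneg_left h3 hC.le)
      _ = C * M ^ 2 * (r ^ (n - 1) * (1 + r * ‖z‖) ^ (-dd n)) := by ring
      _ ≤ _ := by gcongr
  have hvol := shell_len hN hρ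
  rw [← hS] at hvol
  have hfin : volume S ≠ ⊤ := (hvol.trans_lt ENNReal.ofReal_lt_top).ne
  have e2 : ∫ r in Ioi (0 : ℝ), (r ^ (n - 1) : ℝ) • (a r *
      Pool.Agent.H789R2.FR.T (fun _ : E n => (1 : ℂ)) (-(2 * Real.pi * r) • z)) =
      ∫ r in S, (r ^ (n - 1) : ℝ) • (a r *
      Pool.Agent.H789R2.FR.T (fun _ : E n => (1 : ℂ)) (-(2 * Real.pi * r) • z)) := by
    refine setIntegral_eq_of_subset_of_forall_sdiff_eq_zero measurableSet_Ioi
      (fun r hr => hr.1) ?_
    intro r hr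
    have : a r = 0 := by
      by_contra hne
      exact hr.2 (haS r hr.1 hne)
    rw [this]
    simp
  rw [e2]
  have h10 := norm_setIntegral_le_of_norm_le_const (μ := volume) (s := S) hfin.lt_top hpt
  refine h10.trans ?_
  have h11 : volume.real S ≤ 2 * ρ / N := by
    rw [measureReal_def]
    exact ENNReal.toReal_le_of_le_ofReal (by positivity) hvol
  have h12 : 2 * ρ / N ≤ 2 * R / N := by gcongr
  have h13 : R ^ (n - 1) * R = R ^ n := by rw [← pow_succ]; congr 1; omega
  calc C * M ^ 2 * (R ^ (n - 1) * (1 + R * ‖z‖) ^ (-dd n)) * volume.real S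
      ≤ C * (M ^ 2 + 1) * (R ^ (n - 1) * (1 + R * ‖z‖) ^ (-dd n)) * (2 * R / N) := by
        gcongr
        · linarith
        · exact h11.trans h12
    _ = 2 * C * (M ^ 2 + 1) * (R ^ (n - 1) * R / N) * (1 + R * ‖z‖) ^ (-dd n) := by ring
    _ = _ := by rw [h13]

end Pool.Agent.W774.TB
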