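import Pool.Agent.W774.TB.Ker
set_option autoImplicit false

/-! The `L^2` bound for the dual operator. -/

namespace Pool.Agent.W774.TB

open Set Filter MeasureTheory Metric
open scoped Topology ContDiff FourierTransform ENNReal RealInnerProductSpace ComplexConjugate
open Pool.Agent.W773.BRA (prof Bmp prof_contDiff prof_compact prof_norm_le)

variable {n : ℕ}

/-- dual of the operator with variable radius -/
noncomputable def U (h : ℝ → ℝ) (N : ℝ) (ρ : E n → ℝ) (μ : Measure (E n)) (g : E n → ℂ) (y : E n) :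
    ℂ := ∫ x, 𝓕 (prof h N (ρ x) : E n → ℂ) (y - x) * g x ∂μ

/-- the integrand on the Fourier side -/
noncomputable def P (h : ℝ → ℝ) (N : ℝ) (ρ : E n → ℝ) (g : E n → ℂ) (ξ x : E n) : ℂ :=
  (Real.fourierChar ⟪ξ, x⟫ : ℂ) * prof h N (ρ x) ξ * g x

lemma ch_cont2 : Continuous (fun p : E n × E n => (Real.fourierChar ⟪p.1, p.2⟫ : ℂ)) :=
  continuous_subtype_val.comp (Real.continuous_fourierChar.comp (by fun_prop))

lemma ch_meas {α : Type*} [MeasurableSpace α] {a b : α → E n} (ha : Measurable a)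
    (hb : Measurable b) : Measurable (fun p : α => (Real.fourierChar ⟪a p, b p⟫ : ℂ)) := by
  have h1 : Measurable (fun p : α => (⟪a p, b p⟫ : ℝ)) := ha.inner hb
  have h2 : Measurable (fun t : ℝ => (Real.fourierChar t : ℂ)) :=
    (continuous_subtype_val.comp Real.continuous_fourierChar).measurable
  exact h2.comp h1

lemma prof_meas {α : Type*} [MeasurableSpace α] {h : ℝ → ℝ} (hh : Bmp h) (N : ℝ) {r : α → ℝ}
    {w : α → E n} (hr : Measurable r) (hw : Measurable w) :
    Measurable (fun p : α => prof h N (r p) (w p)) := by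
  have h1 : Measurable h := hh.1.continuous.measurable
  have h2 : Measurable (fun p : α => N * (1 - ‖w p‖ ^ 2 / (r p) ^ 2)) := by fun_prop
  exact Complex.measurable_ofReal.comp (h1.comp h2)

lemma P_meas {α : Type*} [MeasurableSpace α] {h : ℝ → ℝ} (hh : Bmp h) (N : ℝ) {ρ : E n → ℝ}
    (hρ : Measurable ρ) {g : E n → ℂ} (hg : Measurable g) {a b : α → E n} (ha : Measurable a)
    (hb : Measurable b) : Measurable (fun p : α => P h N ρ g (a p) (b p)) := by
  have h1 := ch_meas ha hb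
  have h2 := prof_meas hh N (hρ.comp hb) ha
  have h3 := hg.comp hb
  exact (h1.mul h2).mul h3

lemma prof_le {h : ℝ → ℝ} {M : ℝ} (hM : ∀ u, |h u| ≤ M) (N ρ : ℝ) (ξ : E n) :
    ‖prof h N ρ ξ‖ ≤ M := by
  unfold Pool.Agent.W773.BRA.prof
  rw [Complex.norm_real, Real.norm_eq_abs]
  exact hM _

lemma P_le {h : ℝ → ℝ} {M : ℝ} (hM : ∀ u, |h u| ≤ M) (N : ℝ) (ρ : E n → ℝ) {g : E n → ℂ}
    {B : ℝ} (hB : ∀ x, ‖g x‖ ≤ B) (ξ x : E n) : ‖P h N ρ g ξ x‖ ≤ M * B := by
  have hM0 : 0 ≤ M := (abs_nonneg _).trans (hM 0)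
  unfold P
  rw [norm_mul, norm_mul, Circle.norm_coe, one_mul]
  exact mul_le_mul (prof_le hM _ _ _) (hB x) (norm_nonneg _) hM0

lemma P_zero {h : ℝ → ℝ} (hh : Bmp h) {N R : ℝ} (hN : 0 < N) {ρ : E n → ℝ}
    (hρ0 : ∀ x, 0 < ρ x) (hρR : ∀ x, ρ x ≤ R) (g : E n → ℂ) {ξ : E n} (hξ : R < ‖ξ‖) (x : E n) :
    P h N ρ g ξ x = 0 := by
  have : prof h N (ρ x) ξ = 0 := by
    by_contra hne
    have := prof_norm_le hh hN (hρ0 x) hne
    linarith [hρR x]
  unfold P
  rw [this]
  simp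

lemma ind_int {R c : ℝ} : Integrable ((closedBall (0 : E n) R).indicator (fun _ => c)) :=
  (integrable_indicator_iff measurableSet_closedBall).2
    (integrableOn_const (measure_closedBall_lt_top.ne))

lemma P_int {h : ℝ → ℝ} (hh : Bmp h) {M : ℝ} (hM : ∀ u, |h u| ≤ M) {N R : ℝ} (hN : 0 < N)
    {ρ : E n → ℝ} (hρ : Measurable ρ) (hρ0 : ∀ x, 0 < ρ x) (hρR : ∀ x, ρ x ≤ R)
    {μ : Measure (E n)} [IsFiniteMeasure μ] {g : E n → ℂ} (hg : Measurable g) {B : ℝ}
    (hB : ∀ x, ‖g x‖ ≤ B) :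
    Integrable (fun p : E n × E n => P h N ρ g p.1 p.2) ((volume : Measure (E n)).prod μ) := by
  have hM0 : 0 ≤ M := (abs_nonneg _).trans (hM 0)
  have hB0 : 0 ≤ B := (norm_nonneg _).trans (hB 0)
  have h1 : Integrable (fun p : E n × E n =>
      (closedBall (0 : E n) R).indicator (fun _ => M * B) p.1 * (1 : ℝ))
      ((volume : Measure (E n)).prod μ) := Integrable.mul_prod ind_int (integrable_const (1 : ℝ))
  refine h1.mono' (P_meas hh N hρ hg measurable_fst measurable_snd).aestronglyMeasurable ?_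
  filter_upwards with p
  rw [mul_one]
  by_cases hp : p.1 ∈ closedBall (0 : E n) R
  · rw [indicator_of_mem hp]
    exact P_le hM N ρ hB _ _
  · rw [indicator_of_notMem hp]
    rw [mem_closedBall_zero_iff, not_le] at hp
    rw [P_zero hh hN hρ0 hρR g hp]
    simp

lemma U_eq {h : ℝ → ℝ} (hh : Bmp h) {M : ℝ} (hM : ∀ u, |h u| ≤ M) {N R : ℝ} (hN : 0 < N)
    {ρ : E n → ℝ} (hρ : Measurable ρ) (hρ0 : ∀ x, 0 < ρ x) (hρR : ∀ x, ρ x ≤ R)
    {μ : Measure (E n)} [IsFiniteMeasure μ] {g : E n → ℂ} (hg : Measurable g) {B : ℝ}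
    (hB : ∀ x, ‖g x‖ ≤ B) (y : E n) :
    U h N ρ μ g y = 𝓕 (fun ξ : E n => ∫ x, P h N ρ g ξ x ∂μ) y := by
  have hI := P_int hh hM hN hρ hρ0 hρR (μ := μ) hg hB
  have hI2 : Integrable (fun p : E n × E n => (Real.fourierChar (-⟪p.1, y⟫) : ℂ) *
      P h N ρ g p.1 p.2) ((volume : Measure (E n)).prod μ) := by
    refine hI.bdd_mul (c := 1) ?_ (Eventually.of_forall fun p => (Circle.norm_coe _).le)
    apply Measurable.aestronglyMeasurable
    have : Continuous (fun p : E n × E n => (Real.fourierChar (-⟪p.1, y⟫) : ℂ)) :=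
      continuous_subtype_val.comp (Real.continuous_fourierChar.comp (by fun_prop))
    exact this.measurable
  have e1 : 𝓕 (fun ξ : E n => ∫ x, P h N ρ g ξ x ∂μ) y =
      ∫ ξ : E n, ∫ x, (Real.fourierChar (-⟪ξ, y⟫) : ℂ) * P h N ρ g ξ x ∂μ := by
    rw [Real.fourier_eq]
    apply integral_congr_ae
    filter_upwards with ξ
    rw [Circle.smul_def, smul_eq_mul, integral_const_mul]
  rw [e1, integral_integral_swap (f := fun ξ x => (Real.fourierChar (-⟪ξ, y⟫) : ℂ) *
    P h N ρ g ξ x) hI2]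
  unfold U
  apply integral_congr_ae
  filter_upwards with x
  rw [Real.fourier_eq, ← integral_mul_const]
  apply integral_congr_ae
  filter_upwards with ξ
  unfold P
  rw [Circle.smul_def, smul_eq_mul]
  have : (Real.fourierChar (-⟪ξ, y - x⟫) : ℂ) =
      (Real.fourierChar (-⟪ξ, y⟫) : ℂ) * (Real.fourierChar ⟪ξ, x⟫ : ℂ) := by
    rw [inner_sub_right, neg_sub, sub_eq_add_neg, AddChar.map_add_eq_mul]
    push_cast
    ring
  rw [this]
  ring

lemma F_meas {h : ℝ → ℝ} (hh : Bmp h) (N : ℝ) {ρ : E n → ℝ} (hρ : Measurable ρ)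
    {μ : Measure (E n)} [IsFiniteMeasure μ] {g : E n → ℂ} (hg : Measurable g) :
    StronglyMeasurable (fun ξ : E n => ∫ x, P h N ρ g ξ x ∂μ) := by
  have h1 : StronglyMeasurable (fun p : E n × E n => P h N ρ g p.1 p.2) :=
    (P_meas hh N hρ hg measurable_fst measurable_snd).stronglyMeasurable
  exact h1.integral_prod_right

theorem U_L2 (hn : 2 ≤ n) {h : ℝ → ℝ} (hh : Bmp h) : ∃ C : ℝ, 0 < C ∧ ∀ N R : ℝ, 1 ≤ N →
    ∀ ρ : E n → ℝ, Measurable ρ → (∀ x, 0 < ρ x) → (∀ x, ρ x ≤ R) →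
    ∀ (μ : Measure (E n)) [IsFiniteMeasure μ] (g : E n → ℂ), Measurable g →
    (∃ B : ℝ, ∀ x, ‖g x‖ ≤ B) →
    ∫⁻ y, ‖U h N ρ μ g y‖ₑ ^ 2 ≤ ∫⁻ x, ∫⁻ x', ‖g x‖ₑ * ‖g x'‖ₑ *
      ENNReal.ofReal (C * (R ^ n / N) * (1 + R * ‖x - x'‖) ^ (-dd n)) ∂μ ∂μ := by
  obtain ⟨M, hM⟩ : ∃ M : ℝ, ∀ u, |h u| ≤ M := by
    obtain ⟨C, hC⟩ := (isCompact_Icc (a := (1 / 2 : ℝ)) (b := 2)).exists_bound_of_continuousOn
      hh.1.continuous.continuousOn
    refine ⟨|C|, fun u => ?_⟩
    by_cases hu : u ∈ Icc (1 / 2 : ℝ) 2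
    · have := hC u hu
      rw [Real.norm_eq_abs] at this
      exact this.trans (le_abs_self C)
    · rw [hh.2 u hu, abs_zero]
      exact abs_nonneg _
  obtain ⟨C, hC, HK⟩ := kap_bound hn hh hM
  refine ⟨C, hC, fun N R hN ρ hρ hρ0 hρR μ _ g hg ⟨B, hB⟩ => ?_⟩
  have hN0 : 0 < N := by linarith
  have hM0 : 0 ≤ M := (abs_nonneg _).trans (hM 0)
  have hB0 : 0 ≤ B := (norm_nonneg _).trans (hB 0)
  have hR0 : 0 < R := (hρ0 0).trans_le (hρR 0)
  set F : E n → ℂ := fun ξ : E n => ∫ x, P h N ρ g ξ x ∂μ with hF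
  have hFm : StronglyMeasurable F := F_meas hh N hρ hg
  set b : ℝ := M * B * μ.real univ with hb
  have hb0 : 0 ≤ b := by positivity
  have hFb : ∀ ξ, ‖F ξ‖ ≤ b := fun ξ => by
    have := norm_integral_le_of_norm_le_const (μ := μ) (f := fun x => P h N ρ g ξ x)
      (C := M * B) (Eventually.of_forall fun x => P_le hM N ρ hB ξ x)
    exact this
  have hF0 : ∀ ξ : E n, R < ‖ξ‖ → F ξ = 0 := fun ξ hξ => by
    rw [hF]
    simp only
    simp_rw [P_zero hh hN0 hρ0 hρR g hξ]
    simp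
  have hFle : ∀ ξ : E n, ‖F ξ‖ ≤ (closedBall (0 : E n) R).indicator (fun _ => b) ξ := by
    intro ξ
    by_cases hp : ξ ∈ closedBall (0 : E n) R
    · rw [indicator_of_mem hp]; exact hFb ξ
    · rw [indicator_of_notMem hp]
      rw [mem_closedBall_zero_iff, not_le] at hp
      rw [hF0 ξ hp]; simp
  have hFI : Integrable F := ind_int.mono' hFm.aestronglyMeasurable (Eventually.of_forall hFle)
  have hF2 : MemLp F 2 := by
    have h1 : MemLp ((closedBall (0 : E n) R).indicator (fun _ => b)) 2 :=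
      memLp_indicator_const 2 measurableSet_closedBall b (Or.inr measure_closedBall_lt_top.ne)
    refine h1.mono hFm.aestronglyMeasurable (Eventually.of_forall fun ξ => ?_)
    refine (hFle ξ).trans (le_abs_self _)
  have e1 : ∫⁻ y, ‖U h N ρ μ g y‖ₑ ^ 2 = ∫⁻ ξ, ‖F ξ‖ₑ ^ 2 := by
    rw [← Pool.Agent.H153R4.plancherel F hFI hF2]
    apply lintegral_congr
    intro y
    rw [U_eq hh hM hN0 hρ hρ0 hρR hg hB]
  rw [e1]
  have hFsq : Integrable (fun ξ => ‖F ξ‖ ^ 2) := hF2.integrable_norm_pow (by norm_num)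
  have e2 : ∫⁻ ξ, ‖F ξ‖ₑ ^ 2 = ENNReal.ofReal (∫ ξ, ‖F ξ‖ ^ 2) := by
    rw [ofReal_integral_eq_lintegral_ofReal hFsq (Eventually.of_forall fun ξ => by positivity)]
    apply lintegral_congr
    intro ξ
    rw [← ofReal_norm, ENNReal.ofReal_pow (norm_nonneg _)]
  have hgi : ∀ x x' : E n, ‖g x * conj (g x')‖ ≤ B * B := fun x x' => by
    rw [norm_mul, RCLike.norm_conj]
    exact mul_le_mul (hB x) (hB x') (norm_nonneg _) hB0
  have e3 : ((∫ ξ, ‖F ξ‖ ^ 2 : ℝ) : ℂ) = ∫ p : E n × E n, g p.1 * conj (g p.2) *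
      kap h N (ρ p.1) (ρ p.2) (p.1 - p.2) ∂(μ.prod μ) := by
    have h1 : ((∫ ξ, ‖F ξ‖ ^ 2 : ℝ) : ℂ) = ∫ ξ, F ξ * conj (F ξ) := by
      rw [← integral_complex_ofReal]
      apply integral_congr_ae
      filter_upwards with ξ
      rw [Complex.mul_conj, Complex.normSq_eq_norm_sq]
    have h2 : ∀ ξ, F ξ * conj (F ξ) = ∫ p : E n × E n, P h N ρ g ξ p.1 * conj (P h N ρ g ξ p.2)
        ∂(μ.prod μ) := by
      intro ξ
      rw [integral_prod_mul (fun x => P h N ρ g ξ x) (fun y => conj (P h N ρ g ξ y)), integral_conj]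
    rw [h1]
    simp_rw [h2]
    rw [integral_integral_swap (f := fun ξ (p : E n × E n) =>
      P h N ρ g ξ p.1 * conj (P h N ρ g ξ p.2))]
    · apply integral_congr_ae
      filter_upwards with p
      unfold kap
      rw [← integral_const_mul]
      apply integral_congr_ae
      filter_upwards with ξ
      unfold P
      have h3 : conj (prof h N (ρ p.2) ξ) = prof h N (ρ p.2) ξ := by
        unfold Pool.Agent.W773.BRA.prof
        rw [Complex.conj_ofReal]
      have h4 : (Real.fourierChar ⟪ξ, p.1 - p.2⟫ : ℂ) =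
          (Real.fourierChar ⟪ξ, p.1⟫ : ℂ) * conj (Real.fourierChar ⟪ξ, p.2⟫ : ℂ) := by
        rw [inner_sub_right, sub_eq_add_neg, AddChar.map_add_eq_mul, AddChar.map_neg_eq_inv,
          Circle.coe_mul, Circle.coe_inv_eq_conj]
      rw [map_mul, map_mul, h3, h4]
      ring
    · have h3 : Integrable (fun z : E n × (E n × E n) =>
          (closedBall (0 : E n) R).indicator (fun _ => (M * B) * (M * B)) z.1 * (1 : ℝ))
          ((volume : Measure (E n)).prod (μ.prod μ)) :=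
        Integrable.mul_prod ind_int (integrable_const (1 : ℝ))
      refine h3.mono' ?_ ?_
      · apply Measurable.aestronglyMeasurable
        have ha : Measurable (fun z : E n × (E n × E n) => P h N ρ g z.1 z.2.1) :=
          P_meas hh N hρ hg measurable_fst (measurable_fst.comp measurable_snd)
        have hb' : Measurable (fun z : E n × (E n × E n) => P h N ρ g z.1 z.2.2) :=
          P_meas hh N hρ hg measurable_fst (measurable_snd.comp measurable_snd)
        have hb'' : Measurable (fun z : E n × (E n × E n) => conj (P h N ρ g z.1 z.2.2)) :=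
          Complex.continuous_conj.measurable.comp hb'
        exact ha.mul hb''
      · filter_upwards with z
        rw [mul_one]
        simp only [Function.uncurry_def]
        by_cases hp : z.1 ∈ closedBall (0 : E n) R
        · rw [indicator_of_mem hp, norm_mul, RCLike.norm_conj]
          exact mul_le_mul (P_le hM N ρ hB _ _) (P_le hM N ρ hB _ _) (norm_nonneg _)
            (by positivity)
        · rw [indicator_of_notMem hp]
          rw [mem_closedBall_zero_iff, not_le] at hp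
          rw [P_zero hh hN0 hρ0 hρR g hp]
          simp
  rw [e2]
  have h5 : (∫ ξ, ‖F ξ‖ ^ 2) ≤ ∫ p : E n × E n, ‖g p.1‖ * ‖g p.2‖ *
      (C * (R ^ n / N) * (1 + R * ‖p.1 - p.2‖) ^ (-dd n)) ∂(μ.prod μ) := by
    have h6 : (∫ ξ, ‖F ξ‖ ^ 2) = ‖((∫ ξ, ‖F ξ‖ ^ 2 : ℝ) : ℂ)‖ := by
      rw [Complex.norm_real, Real.norm_eq_abs, abs_of_nonneg]
      exact integral_nonneg fun ξ => by positivity
    rw [h6, e3]
    refine norm_integral_le_of_norm_le ?_ (Eventually.of_forall fun p => ?_)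
    · refine Integrable.of_bound (C := B * B * (C * (R ^ n / N) * 1)) ?_
        (Eventually.of_forall fun p => ?_)
      · apply Measurable.aestronglyMeasurable
        have h7 : Measurable (fun p : E n × E n => (1 + R * ‖p.1 - p.2‖) ^ (-dd n)) :=
          Measurable.pow_const (by fun_prop) _
        exact (((hg.comp measurable_fst).norm.mul (hg.comp measurable_snd).norm)).mul
          (h7.const_mul _)
      · have h8 : (1 + R * ‖p.1 - p.2‖) ^ (-dd n) ≤ 1 := by
          apply Real.rpow_le_one_of_one_le_of_nonpos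
          · have : 0 ≤ R * ‖p.1 - p.2‖ := by positivity
            linarith
          · linarith [dd_pos hn]
        rw [Real.norm_eq_abs, abs_of_nonneg (by positivity)]
        have := hB p.1
        have := hB p.2
        gcongr
    · rw [norm_mul, norm_mul, RCLike.norm_conj]
      gcongr
      exact HK N R (ρ p.1) (ρ p.2) hN (hρ0 _) (hρR _) (hρ0 _) (hρR _) _
  refine (ENNReal.ofReal_le_ofReal h5).trans ?_
  have hmeas : Measurable (fun p : E n × E n => ‖g p.1‖ * ‖g p.2‖ *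
      (C * (R ^ n / N) * (1 + R * ‖p.1 - p.2‖) ^ (-dd n))) := by
    have h7 : Measurable (fun p : E n × E n => (1 + R * ‖p.1 - p.2‖) ^ (-dd n)) :=
      Measurable.pow_const (by fun_prop) _
    exact (((hg.comp measurable_fst).norm.mul (hg.comp measurable_snd).norm)).mul
      (h7.const_mul _)
  have h9 : ENNReal.ofReal (∫ p : E n × E n, ‖g p.1‖ * ‖g p.2‖ *
      (C * (R ^ n / N) * (1 + R * ‖p.1 - p.2‖) ^ (-dd n)) ∂(μ.prod μ)) ≤
      ∫⁻ p : E n × E n, ENNReal.ofReal (‖g p.1‖ * ‖g p.2‖ *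
      (C * (R ^ n / N) * (1 + R * ‖p.1 - p.2‖) ^ (-dd n))) ∂(μ.prod μ) := by
    rw [integral_eq_lintegral_of_nonneg_ae (Eventually.of_forall fun p => by positivity)
      hmeas.aestronglyMeasurable]
    exact ENNReal.ofReal_toReal_le
  refine h9.trans ?_
  rw [lintegral_prod _ hmeas.ennreal_ofReal.aemeasurable]
  apply le_of_eq
  apply lintegral_congr
  intro x
  apply lintegral_congr
  intro x'
  rw [ENNReal.ofReal_mul (by positivity), ENNReal.ofReal_mul (norm_nonneg _), ofReal_norm,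
    ofReal_norm]

end Pool.Agent.W774.TB
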