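import Pool.Agent.W774.TB.Tail
set_option autoImplicit false

/-! Localisation to balls. -/

namespace Pool.Agent.W774.TB

open Set Filter MeasureTheory Metric
open scoped Topology ContDiff FourierTransform ENNReal RealInnerProductSpace ComplexConjugate
open Pool.Agent.W773.BRA (prof Bmp prof_contDiff prof_compact prof_norm_le)

variable {n : ℕ}

lemma jensen_low {α : Type*} [MeasurableSpace α] {μ : Measure α} {f : α → ℝ≥0∞}
    (hf : AEMeasurable f μ) {s : ℝ} (hs : 0 < s) (hs2 : s ≤ 2) :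
    ∫⁻ a, f a ^ s ∂μ ≤ (μ univ) ^ (1 - s / 2) * (∫⁻ a, f a ^ 2 ∂μ) ^ (s / 2) := by
  have h1 := ENNReal.lintegral_mul_norm_pow_le (μ := μ) (f := fun a => f a ^ 2)
    (g := fun _ => 1) (hf.pow_const 2) aemeasurable_const (p := s / 2) (q := 1 - s / 2)
    (by linarith) (by linarith) (by ring)
  simp only [ENNReal.one_rpow, mul_one, lintegral_const, one_mul] at h1
  have h2 : ∀ a, (f a ^ 2) ^ (s / 2) = f a ^ s := by
    intro a
    rw [← ENNReal.rpow_two, ← ENNReal.rpow_mul]
    congr 1; ring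
  simp_rw [h2] at h1
  rw [mul_comm]
  exact h1

lemma jensen_up {α : Type*} [MeasurableSpace α] {μ : Measure α} {f : α → ℝ≥0∞}
    (hf : AEMeasurable f μ) {s : ℝ} (hs : 1 ≤ s) :
    (∫⁻ a, f a ∂μ) ^ s ≤ (μ univ) ^ (s - 1) * ∫⁻ a, f a ^ s ∂μ := by
  have hs0 : 0 < s := by linarith
  have h1 := ENNReal.lintegral_mul_norm_pow_le (μ := μ) (f := fun a => f a ^ s)
    (g := fun _ => 1) (hf.pow_const s) aemeasurable_const (p := 1 / s) (q := 1 - 1 / s)
    (by positivity) (by
      have : 1 / s ≤ 1 := by rw [div_le_one hs0]; exact hs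
      linarith) (by ring)
  simp only [ENNReal.one_rpow, mul_one, lintegral_const, one_mul] at h1
  have h2 : ∀ a, (f a ^ s) ^ (1 / s) = f a := by
    intro a
    rw [← ENNReal.rpow_mul, mul_one_div_cancel hs0.ne', ENNReal.rpow_one]
  simp_rw [h2] at h1
  refine (ENNReal.rpow_le_rpow h1 hs0.le).trans (le_of_eq ?_)
  rw [ENNReal.mul_rpow_of_nonneg _ _ hs0.le, ← ENNReal.rpow_mul, ← ENNReal.rpow_mul,
    one_div_mul_cancel hs0.ne', ENNReal.rpow_one, mul_comm]
  congr 2
  field_simp

lemma Kf_meas {α : Type*} [MeasurableSpace α] {h : ℝ → ℝ} (hh : Bmp h) (N : ℝ) {ρ : E n → ℝ}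
    (hρ : Measurable ρ) {a b : α → E n} (ha : Measurable a) (hb : Measurable b) :
    Measurable (fun p : α => 𝓕 (prof h N (ρ (a p)) : E n → ℂ) (b p - a p)) := by
  have h1 : StronglyMeasurable (fun z : α × E n =>
      (Real.fourierChar (⟪z.2, -(b z.1 - a z.1)⟫) : ℂ) * prof h N (ρ (a z.1)) z.2) := by
    apply Measurable.stronglyMeasurable
    refine (ch_meas measurable_snd ?_).mul (prof_meas hh N ?_ measurable_snd)
    · exact ((hb.comp measurable_fst).sub (ha.comp measurable_fst)).neg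
    · exact hρ.comp (ha.comp measurable_fst)
  have h2 := h1.integral_prod_right' (ν := (volume : Measure (E n)))
  have h3 : (fun p : α => 𝓕 (prof h N (ρ (a p)) : E n → ℂ) (b p - a p)) =
      fun p => ∫ ξ : E n, (Real.fourierChar (⟪ξ, -(b p - a p)⟫) : ℂ) * prof h N (ρ (a p)) ξ := by
    funext p
    rw [Real.fourier_eq]
    apply integral_congr_ae
    filter_upwards with ξ
    rw [Circle.smul_def, smul_eq_mul, inner_neg_right]
  rw [h3]
  exact h2.measurable

/-- the restriction of `g` to a ball -/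
noncomputable def gu (g : E n → ℂ) (L : ℝ) (u : E n) : E n → ℂ := (closedBall u L).indicator g

lemma gu_meas {g : E n → ℂ} (hg : Measurable g) (L : ℝ) (u : E n) : Measurable (gu g L u) :=
  hg.indicator measurableSet_closedBall

lemma gu_eq (g : E n → ℂ) (L : ℝ) (u x : E n) :
    gu g L u x = {p : E n × E n | dist p.2 p.1 ≤ L}.indicator (fun p => g p.2) (u, x) := by
  unfold gu
  by_cases h : x ∈ closedBall u L
  · rw [indicator_of_mem h, indicator_of_mem]
    exact h
  · rw [indicator_of_notMem h, indicator_of_notMem]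
    exact h

lemma KL_meas (L : ℝ) : MeasurableSet {p : E n × E n | dist p.2 p.1 ≤ L} :=
  measurableSet_le (by fun_prop) measurable_const

lemma gu_meas2 {g : E n → ℂ} (hg : Measurable g) (L : ℝ) :
    Measurable (fun p : E n × E n => gu g L p.1 p.2) := by
  have : (fun p : E n × E n => gu g L p.1 p.2) =
      {p : E n × E n | dist p.2 p.1 ≤ L}.indicator (fun p => g p.2) := by
    funext p
    rw [gu_eq]
  rw [this]
  exact (hg.comp measurable_snd).indicator (KL_meas L)

lemma gu_meas3 {α : Type*} [MeasurableSpace α] {g : E n → ℂ} (hg : Measurable g) (L : ℝ)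
    {a b : α → E n} (ha : Measurable a) (hb : Measurable b) :
    Measurable (fun p : α => gu g L (a p) (b p)) := by
  have hm : MeasurableSet {p : α | dist (b p) (a p) ≤ L} :=
    measurableSet_le (hb.dist ha) measurable_const
  have : (fun p : α => gu g L (a p) (b p)) =
      {p : α | dist (b p) (a p) ≤ L}.indicator (fun p => g (b p)) := by
    funext p
    unfold gu
    by_cases hp : dist (b p) (a p) ≤ L
    · rw [indicator_of_mem (mem_closedBall.2 hp), indicator_of_mem (show p ∈ {p : α |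
        dist (b p) (a p) ≤ L} from hp)]
    · rw [indicator_of_notMem (fun hc => hp (mem_closedBall.1 hc)),
        indicator_of_notMem (show p ∉ {p : α | dist (b p) (a p) ≤ L} from hp)]
  rw [this]
  exact (hg.comp hb).indicator hm

lemma Ugu_meas {h : ℝ → ℝ} (hh : Bmp h) (N : ℝ) {ρ : E n → ℝ} (hρ : Measurable ρ)
    {μ : Measure (E n)} [IsFiniteMeasure μ] {g : E n → ℂ} (hg : Measurable g) (L : ℝ) :
    Measurable (fun p : E n × E n => U h N ρ μ (gu g L p.1) p.2) := by
  unfold U
  have h1 : StronglyMeasurable (fun z : (E n × E n) × E n =>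
      𝓕 (prof h N (ρ z.2) : E n → ℂ) (z.1.2 - z.2) * gu g L z.1.1 z.2) := by
    apply Measurable.stronglyMeasurable
    exact (Kf_meas hh N hρ measurable_snd (measurable_snd.comp measurable_fst)).mul
      (gu_meas3 hg L (measurable_fst.comp measurable_fst) measurable_snd)
  exact (h1.integral_prod_right' (ν := μ)).measurable

lemma U_meas {h : ℝ → ℝ} (hh : Bmp h) (N : ℝ) {ρ : E n → ℝ} (hρ : Measurable ρ)
    {μ : Measure (E n)} [IsFiniteMeasure μ] {g : E n → ℂ} (hg : Measurable g) :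
    Measurable (fun y : E n => U h N ρ μ g y) := by
  unfold U
  have h1 : StronglyMeasurable (fun z : E n × E n =>
      𝓕 (prof h N (ρ z.2) : E n → ℂ) (z.1 - z.2) * g z.2) := by
    apply Measurable.stronglyMeasurable
    exact (Kf_meas hh N hρ measurable_snd measurable_fst).mul (hg.comp measurable_snd)
  exact (h1.integral_prod_right' (ν := μ)).measurable

section
variable {h : ℝ → ℝ} (hh : Bmp h) {N : ℝ} {ρ : E n → ℝ} (hρ : Measurable ρ)
    {μ : Measure (E n)} [IsFiniteMeasure μ] {g : E n → ℂ} (hg : Measurable g)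
    {B : ℝ} (hB : ∀ x, ‖g x‖ ≤ B) {Bk : ℝ}
    (hBk : ∀ x y : E n, ‖𝓕 (prof h N (ρ x) : E n → ℂ) (y - x)‖ ≤ Bk)
include hh hρ hg hB hBk

/-- averaging over the centres of balls -/
lemma avg (L : ℝ) (y : E n) :
    volume (closedBall (0 : E n) L) * ‖U h N ρ μ g y‖ₑ ≤
      ∫⁻ u, ‖U h N ρ μ (gu g L u) y‖ₑ := by
  have hBk0 : 0 ≤ Bk := (norm_nonneg _).trans (hBk 0 0)
  have hB0 : 0 ≤ B := (norm_nonneg _).trans (hB 0)
  set f : E n → ℂ := fun x => 𝓕 (prof h N (ρ x) : E n → ℂ) (y - x) * g x with hf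
  have hfm : Measurable f := (Kf_meas hh N hρ measurable_id measurable_const).mul hg
  have hfb : ∀ x, ‖f x‖ ≤ Bk * B := fun x => by
    rw [hf]; simp only; rw [norm_mul]
    exact mul_le_mul (hBk x y) (hB x) (norm_nonneg _) hBk0
  set K : Set (E n × E n) := {p : E n × E n | dist p.2 p.1 ≤ L} with hK
  have hKm : MeasurableSet K := KL_meas L
  set F : E n × E n → ℂ := K.indicator (fun p => f p.2) with hF
  have hFm : Measurable F := (hfm.comp measurable_snd).indicator hKm
  have hvx : ∀ x : E n, volume (closedBall x L) = volume (closedBall (0 : E n) L) := fun x =>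
    Measure.addHaar_closedBall_center _ _ _
  have hKfin : (volume.prod μ) K < ⊤ := by
    rw [Measure.prod_apply_symm hKm]
    have : ∀ x : E n, volume ((fun u => (u, x)) ⁻¹' K) = volume (closedBall (0 : E n) L) := by
      intro x
      rw [← hvx x]
      congr 1
      ext u
      simp only [hK, mem_preimage, mem_ofPred_eq, mem_closedBall]
      rw [dist_comm]
    simp_rw [this]
    rw [lintegral_const]
    exact ENNReal.mul_lt_top measure_closedBall_lt_top (measure_lt_top _ _)
  have hFint : Integrable F (volume.prod μ) := by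
    have h1 : Integrable (K.indicator (fun _ => Bk * B)) (volume.prod μ) :=
      (integrable_indicator_iff hKm).2 (integrableOn_const hKfin.ne)
    refine h1.mono' hFm.aestronglyMeasurable (Eventually.of_forall fun p => ?_)
    by_cases hp : p ∈ K
    · rw [hF, indicator_of_mem hp, indicator_of_mem hp]; exact hfb _
    · rw [hF, indicator_of_notMem hp, indicator_of_notMem hp]; simp
  have hU : ∀ u, U h N ρ μ (gu g L u) y = ∫ x, F (u, x) ∂μ := by
    intro u
    unfold U
    apply integral_congr_ae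
    filter_upwards with x
    rw [gu_eq]
    by_cases hp : (u, x) ∈ K
    · rw [hF, indicator_of_mem hp, indicator_of_mem hp]
    · rw [hF, indicator_of_notMem hp, indicator_of_notMem hp, mul_zero]
  have hswap : ∫ u, ∫ x, F (u, x) ∂μ = ((volume (closedBall (0 : E n) L)).toReal : ℂ) *
      U h N ρ μ g y := by
    rw [integral_integral_swap (f := fun u x => F (u, x)) hFint]
    have h2 : ∀ x : E n, ∫ u, F (u, x) = ((volume (closedBall (0 : E n) L)).toReal : ℂ) * f x := by
      intro x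
      have h3 : ∀ u, F (u, x) = (closedBall x L).indicator (fun _ => f x) u := by
        intro u
        by_cases hp : u ∈ closedBall x L
        · have hp' : (u, x) ∈ K := by
            simp only [hK, mem_ofPred_eq]; rw [dist_comm]; exact hp
          rw [hF, indicator_of_mem hp', indicator_of_mem hp]
        · have hp' : (u, x) ∉ K := by
            simp only [hK, mem_ofPred_eq]; rw [dist_comm]; exact hp
          rw [hF, indicator_of_notMem hp', indicator_of_notMem hp]
      simp_rw [h3]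
      rw [integral_indicator measurableSet_closedBall, setIntegral_const, measureReal_def, hvx x,
        Complex.real_smul]
    simp_rw [h2]
    rw [integral_const_mul]
    rfl
  have h4 : volume (closedBall (0 : E n) L) * ‖U h N ρ μ g y‖ₑ =
      ‖∫ u, ∫ x, F (u, x) ∂μ‖ₑ := by
    rw [hswap, enorm_mul]
    congr 1
    rw [← ofReal_norm, Complex.norm_real, Real.norm_eq_abs, abs_of_nonneg ENNReal.toReal_nonneg,
      ENNReal.ofReal_toReal measure_closedBall_lt_top.ne]
  rw [h4]
  simp_rw [← hU]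
  exact enorm_integral_le_lintegral_enorm _

/-- splitting into near and far balls -/
lemma near_far {L : ℝ} {w : E n → E n → ℝ≥0∞}
    (hw : ∀ x y : E n, L < dist x y → ‖𝓕 (prof h N (ρ x) : E n → ℂ) (y - x)‖ₑ ≤ w x y)
    (hwm : Measurable (fun p : E n × E n => w p.1 p.2)) (y : E n) :
    volume (closedBall (0 : E n) L) * ‖U h N ρ μ g y‖ₑ ≤
      (∫⁻ u in closedBall y (2 * L), ‖U h N ρ μ (gu g L u) y‖ₑ) +
      volume (closedBall (0 : E n) L) * ∫⁻ x, w x y * ‖g x‖ₑ ∂μ := by
  refine (avg hh hρ hg hB hBk L y).trans ?_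
  rw [← lintegral_add_compl _ (measurableSet_closedBall (x := y) (ε := 2 * L))]
  gcongr
  set K : Set (E n × E n) := {p : E n × E n | dist p.2 p.1 ≤ L} with hK
  have hKm : MeasurableSet K := KL_meas L
  have h1 : ∀ u ∈ (closedBall y (2 * L))ᶜ, ‖U h N ρ μ (gu g L u) y‖ₑ ≤
      ∫⁻ x, K.indicator (fun p => w p.2 y * ‖g p.2‖ₑ) (u, x) ∂μ := by
    intro u hu
    unfold U
    refine (enorm_integral_le_lintegral_enorm _).trans ?_
    apply lintegral_mono
    intro x
    simp only
    rw [gu_eq]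
    by_cases hp : (u, x) ∈ K
    · rw [indicator_of_mem hp, indicator_of_mem hp, enorm_mul]
      gcongr
      apply hw
      rw [mem_compl_iff, mem_closedBall, not_le] at hu
      have h2 : dist x u ≤ L := hp
      have h3 := dist_triangle u x y
      rw [dist_comm u x] at h3
      linarith
    · rw [indicator_of_notMem hp, indicator_of_notMem hp]
      simp
  have hm1 : Measurable (fun p : E n × E n => K.indicator (fun p => w p.2 y * ‖g p.2‖ₑ) p) := by
    have h2 : Measurable (fun x : E n => w x y) := hwm.comp measurable_prodMk_right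
    exact ((h2.comp measurable_snd).mul (hg.enorm.comp measurable_snd)).indicator hKm
  calc ∫⁻ u in (closedBall y (2 * L))ᶜ, ‖U h N ρ μ (gu g L u) y‖ₑ
      ≤ ∫⁻ u in (closedBall y (2 * L))ᶜ,
        ∫⁻ x, K.indicator (fun p => w p.2 y * ‖g p.2‖ₑ) (u, x) ∂μ :=
        setLIntegral_mono' measurableSet_closedBall.compl h1
    _ ≤ ∫⁻ u, ∫⁻ x, K.indicator (fun p => w p.2 y * ‖g p.2‖ₑ) (u, x) ∂μ :=
        setLIntegral_le_lintegral _ _
    _ = ∫⁻ x, ∫⁻ u, K.indicator (fun p => w p.2 y * ‖g p.2‖ₑ) (u, x) ∂volume ∂μ :=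
        lintegral_lintegral_swap (f := fun u x =>
          K.indicator (fun p => w p.2 y * ‖g p.2‖ₑ) (u, x)) hm1.aemeasurable
    _ = ∫⁻ x, volume (closedBall (0 : E n) L) * (w x y * ‖g x‖ₑ) ∂μ := by
        apply lintegral_congr
        intro x
        have h3 : ∀ u, K.indicator (fun p => w p.2 y * ‖g p.2‖ₑ) (u, x) =
            (closedBall x L).indicator (fun _ => w x y * ‖g x‖ₑ) u := by
          intro u
          by_cases hp : u ∈ closedBall x L
          · have hp' : (u, x) ∈ K := by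
              simp only [hK, mem_ofPred_eq]; rw [dist_comm]; exact hp
            rw [indicator_of_mem hp', indicator_of_mem hp]
          · have hp' : (u, x) ∉ K := by
              simp only [hK, mem_ofPred_eq]; rw [dist_comm]; exact hp
            rw [indicator_of_notMem hp', indicator_of_notMem hp]
        simp_rw [h3]
        rw [lintegral_indicator measurableSet_closedBall, setLIntegral_const,
          Measure.addHaar_closedBall_center, mul_comm]
    _ = _ := by
        rw [lintegral_const_mul]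
        have h2 : Measurable (fun x : E n => w x y) := hwm.comp measurable_prodMk_right
        exact h2.mul hg.enorm

/-- the localised estimate -/
theorem loc {L : ℝ} {w : E n → E n → ℝ≥0∞}
    (hw : ∀ x y : E n, L < dist x y → ‖𝓕 (prof h N (ρ x) : E n → ℂ) (y - x)‖ₑ ≤ w x y)
    (hwm : Measurable (fun p : E n × E n => w p.1 p.2)) {s : ℝ} (hs : 1 < s) (hs2 : s ≤ 2)
    {Λ : ℝ≥0∞} (hΛ : ∀ u, ∫⁻ y, ‖U h N ρ μ (gu g L u) y‖ₑ ^ 2 ≤
      Λ * (∫⁻ x, ‖gu g L u x‖ₑ ^ s ∂μ) ^ (2 / s)) :
    volume (closedBall (0 : E n) L) ^ s * ∫⁻ y, ‖U h N ρ μ g y‖ₑ ^ s ≤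
      2 ^ (s - 1) * (volume (closedBall (0 : E n) (2 * L)) ^ (s / 2) * Λ ^ (s / 2) *
        volume (closedBall (0 : E n) L) * ∫⁻ x, ‖g x‖ₑ ^ s ∂μ +
      volume (closedBall (0 : E n) L) ^ s * ∫⁻ y, (∫⁻ x, w x y * ‖g x‖ₑ ∂μ) ^ s) := by
  have hs0 : 0 < s := by linarith
  set v1 := volume (closedBall (0 : E n) L) with hv1
  set v2 := volume (closedBall (0 : E n) (2 * L)) with hv2
  have hUm := U_meas hh N hρ (μ := μ) hg
  have hUu := Ugu_meas hh N hρ (μ := μ) hg L
  have hUus : Measurable (fun p : E n × E n => ‖U h N ρ μ (gu g L p.1) p.2‖ₑ ^ s) :=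
    hUu.enorm.pow_const s
  set K2 : Set (E n × E n) := {p : E n × E n | dist p.1 p.2 ≤ 2 * L} with hK2
  have hK2m : MeasurableSet K2 := measurableSet_le (by fun_prop) measurable_const
  have hVm : Measurable (fun y => ∫⁻ x, w x y * ‖g x‖ₑ ∂μ) := by
    have : Measurable (fun p : E n × E n => w p.1 p.2 * ‖g p.1‖ₑ) :=
      hwm.mul (hg.enorm.comp measurable_fst)
    exact this.lintegral_prod_left'
  have hpt : ∀ y, (v1 * ‖U h N ρ μ g y‖ₑ) ^ s ≤ 2 ^ (s - 1) *
      ((∫⁻ u in closedBall y (2 * L), ‖U h N ρ μ (gu g L u) y‖ₑ) ^ s +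
        (v1 * ∫⁻ x, w x y * ‖g x‖ₑ ∂μ) ^ s) := by
    intro y
    have h1 := near_far hh hρ hg hB hBk hw hwm y (μ := μ)
    refine (ENNReal.rpow_le_rpow h1 hs0.le).trans ?_
    exact ENNReal.rpow_add_le_mul_rpow_add_rpow _ _ hs.le
  have hnear : ∀ y, (∫⁻ u in closedBall y (2 * L), ‖U h N ρ μ (gu g L u) y‖ₑ) ^ s ≤
      v2 ^ (s - 1) * ∫⁻ u, K2.indicator (fun p => ‖U h N ρ μ (gu g L p.1) p.2‖ₑ ^ s) (u, y) := by
    intro y
    have h1 := jensen_up (μ := volume.restrict (closedBall y (2 * L)))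
      (f := fun u => ‖U h N ρ μ (gu g L u) y‖ₑ)
      (hUu.comp measurable_prodMk_right).enorm.aemeasurable hs.le
    rw [Measure.restrict_apply_univ, Measure.addHaar_closedBall_center] at h1
    refine h1.trans (le_of_eq ?_)
    congr 1
    rw [← lintegral_indicator measurableSet_closedBall]
    apply lintegral_congr
    intro u
    by_cases hp : u ∈ closedBall y (2 * L)
    · rw [indicator_of_mem hp, indicator_of_mem (show (u, y) ∈ K2 from hp)]
    · rw [indicator_of_notMem hp, indicator_of_notMem (show (u, y) ∉ K2 from hp)]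
  have hmI : Measurable (fun p : E n × E n =>
      K2.indicator (fun p => ‖U h N ρ μ (gu g L p.1) p.2‖ₑ ^ s) p) := hUus.indicator hK2m
  have hin : ∀ u, ∫⁻ y, K2.indicator (fun p => ‖U h N ρ μ (gu g L p.1) p.2‖ₑ ^ s) (u, y) ≤
      v2 ^ (1 - s / 2) * (Λ ^ (s / 2) * ∫⁻ x, ‖gu g L u x‖ₑ ^ s ∂μ) := by
    intro u
    have h1 : ∫⁻ y, K2.indicator (fun p => ‖U h N ρ μ (gu g L p.1) p.2‖ₑ ^ s) (u, y) =
        ∫⁻ y in closedBall u (2 * L), ‖U h N ρ μ (gu g L u) y‖ₑ ^ s := by
      rw [← lintegral_indicator measurableSet_closedBall]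
      apply lintegral_congr
      intro y
      by_cases hp : y ∈ closedBall u (2 * L)
      · rw [indicator_of_mem hp, indicator_of_mem]
        simp only [hK2, mem_ofPred_eq]; rw [dist_comm]; exact hp
      · rw [indicator_of_notMem hp, indicator_of_notMem]
        simp only [hK2, mem_ofPred_eq]; rw [dist_comm]; exact hp
    rw [h1]
    have h2 := jensen_low (μ := volume.restrict (closedBall u (2 * L)))
      (f := fun y => ‖U h N ρ μ (gu g L u) y‖ₑ)
      (U_meas hh N hρ (μ := μ) (gu_meas hg L u)).enorm.aemeasurable hs0 hs2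
    rw [Measure.restrict_apply_univ, Measure.addHaar_closedBall_center] at h2
    refine h2.trans ?_
    gcongr
    have h3 : ∫⁻ y in closedBall u (2 * L), ‖U h N ρ μ (gu g L u) y‖ₑ ^ 2 ≤
        Λ * (∫⁻ x, ‖gu g L u x‖ₑ ^ s ∂μ) ^ (2 / s) :=
      (setLIntegral_le_lintegral _ _).trans (hΛ u)
    refine (ENNReal.rpow_le_rpow h3 (by positivity)).trans (le_of_eq ?_)
    rw [ENNReal.mul_rpow_of_nonneg _ _ (by positivity), ← ENNReal.rpow_mul]
    congr 1
    rw [show 2 / s * (s / 2) = 1 by field_simp, ENNReal.rpow_one]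
  have hgus : ∫⁻ u, ∫⁻ x, ‖gu g L u x‖ₑ ^ s ∂μ = v1 * ∫⁻ x, ‖g x‖ₑ ^ s ∂μ := by
    have hm : Measurable (fun p : E n × E n => ‖gu g L p.1 p.2‖ₑ ^ s) :=
      (gu_meas2 hg L).enorm.pow_const s
    rw [lintegral_lintegral_swap (f := fun u x => ‖gu g L u x‖ₑ ^ s) hm.aemeasurable,
      ← lintegral_const_mul _ (hg.enorm.pow_const s)]
    apply lintegral_congr
    intro x
    have h3 : ∀ u, ‖gu g L u x‖ₑ ^ s = (closedBall x L).indicator (fun _ => ‖g x‖ₑ ^ s) u := by
      intro u
      unfold gu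
      by_cases hp : u ∈ closedBall x L
      · rw [indicator_of_mem hp, indicator_of_mem (mem_closedBall_comm.1 hp)]
      · rw [indicator_of_notMem hp, indicator_of_notMem (fun h => hp (mem_closedBall_comm.1 h))]
        simp [hs0]
    simp_rw [h3]
    rw [lintegral_indicator measurableSet_closedBall, setLIntegral_const,
      Measure.addHaar_closedBall_center, mul_comm]
  have hI1 : ∫⁻ y, (∫⁻ u in closedBall y (2 * L), ‖U h N ρ μ (gu g L u) y‖ₑ) ^ s ≤
      v2 ^ (s / 2) * Λ ^ (s / 2) * v1 * ∫⁻ x, ‖g x‖ₑ ^ s ∂μ := by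
    calc ∫⁻ y, (∫⁻ u in closedBall y (2 * L), ‖U h N ρ μ (gu g L u) y‖ₑ) ^ s
        ≤ ∫⁻ y, v2 ^ (s - 1) *
          ∫⁻ u, K2.indicator (fun p => ‖U h N ρ μ (gu g L p.1) p.2‖ₑ ^ s) (u, y) :=
          lintegral_mono hnear
      _ = v2 ^ (s - 1) *
          ∫⁻ y, ∫⁻ u, K2.indicator (fun p => ‖U h N ρ μ (gu g L p.1) p.2‖ₑ ^ s) (u, y) := by
          rw [lintegral_const_mul]
          exact hmI.lintegral_prod_left'
      _ = v2 ^ (s - 1) *
          ∫⁻ u, ∫⁻ y, K2.indicator (fun p => ‖U h N ρ μ (gu g L p.1) p.2‖ₑ ^ s) (u, y) := by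
          rw [lintegral_lintegral_swap (f := fun y u =>
            K2.indicator (fun p => ‖U h N ρ μ (gu g L p.1) p.2‖ₑ ^ s) (u, y))]
          exact (hmI.comp measurable_swap).aemeasurable
      _ ≤ v2 ^ (s - 1) * ∫⁻ u, v2 ^ (1 - s / 2) *
          (Λ ^ (s / 2) * ∫⁻ x, ‖gu g L u x‖ₑ ^ s ∂μ) := by
          gcongr with u
          exact hin u
      _ = v2 ^ (s - 1) * (v2 ^ (1 - s / 2) * (Λ ^ (s / 2) * (v1 * ∫⁻ x, ‖g x‖ₑ ^ s ∂μ))) := by
          have hm : Measurable (fun u => ∫⁻ x, ‖gu g L u x‖ₑ ^ s ∂μ) :=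
            ((gu_meas2 hg L).enorm.pow_const s).lintegral_prod_right'
          rw [lintegral_const_mul _ (hm.const_mul _), lintegral_const_mul _ hm, hgus]
      _ = _ := by
          rw [← mul_assoc, ← ENNReal.rpow_add_of_nonneg _ _ (by linarith) (by linarith),
            show s - 1 + (1 - s / 2) = s / 2 by ring]
          ring
  calc v1 ^ s * ∫⁻ y, ‖U h N ρ μ g y‖ₑ ^ s = ∫⁻ y, (v1 * ‖U h N ρ μ g y‖ₑ) ^ s := by
        rw [← lintegral_const_mul _ (hUm.enorm.pow_const s)]
        apply lintegral_congr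
        intro y
        rw [ENNReal.mul_rpow_of_nonneg _ _ hs0.le]
    _ ≤ ∫⁻ y, 2 ^ (s - 1) *
      ((∫⁻ u in closedBall y (2 * L), ‖U h N ρ μ (gu g L u) y‖ₑ) ^ s +
        (v1 * ∫⁻ x, w x y * ‖g x‖ₑ ∂μ) ^ s) := lintegral_mono hpt
    _ = 2 ^ (s - 1) * ((∫⁻ y, (∫⁻ u in closedBall y (2 * L), ‖U h N ρ μ (gu g L u) y‖ₑ) ^ s) +
        v1 ^ s * ∫⁻ y, (∫⁻ x, w x y * ‖g x‖ₑ ∂μ) ^ s) := by
        have hm1 : Measurable (fun y => (v1 * ∫⁻ x, w x y * ‖g x‖ₑ ∂μ) ^ s) :=
          (hVm.const_mul _).pow_const s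
        rw [lintegral_const_mul', lintegral_add_right _ hm1]
        · congr 2
          rw [← lintegral_const_mul _ (hVm.pow_const s)]
          apply lintegral_congr
          intro y
          rw [ENNReal.mul_rpow_of_nonneg _ _ hs0.le]
        · exact ENNReal.rpow_ne_top_of_nonneg (by linarith) (by norm_num)
    _ ≤ _ := by gcongr

end

end Pool.Agent.W774.TB
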