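import Pool.Agent.W774.TB.Loc
set_option autoImplicit false

/-! The bound for one dyadic piece of the dual operator. -/

namespace Pool.Agent.W774.TB

open Set Filter MeasureTheory Metric
open scoped Topology ContDiff FourierTransform ENNReal RealInnerProductSpace ComplexConjugate
open Pool.Agent.W773.BRA (prof Bmp prof_contDiff prof_compact prof_norm_le)

variable {n : ℕ}

lemma geo_le {w : ℝ} (hw : 1 < w) (m : ℕ) :
    ∑ i ∈ Finset.range (m + 1), w ^ i ≤ w ^ m * (w / (w - 1)) := by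
  have h1 : 0 < w - 1 := by linarith
  rw [geom_sum_eq hw.ne', ← mul_div_assoc, ← pow_succ]
  gcongr
  linarith

/-- the sum of the dyadic series -/
lemma sum_le {e e' Y : ℝ} (hee : e ≤ e') (he : 0 < e') (hY : 0 < Y) {m : ℕ}
    (hm : (2 : ℝ) ^ m ≤ 4 * Y) :
    ∑ i ∈ Finset.range (m + 1), ((2 : ℝ) ^ i) ^ e ≤
      (2 : ℝ) ^ e' / ((2 : ℝ) ^ e' - 1) * 4 ^ e' * Y ^ e' := by
  have hw : 1 < (2 : ℝ) ^ e' := Real.one_lt_rpow (by norm_num) he
  have h1 : ∀ i : ℕ, ((2 : ℝ) ^ i) ^ e ≤ ((2 : ℝ) ^ e') ^ i := by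
    intro i
    have h2 : ((2 : ℝ) ^ e') ^ i = ((2 : ℝ) ^ i) ^ e' := by
      rw [← Real.rpow_natCast, ← Real.rpow_natCast, ← Real.rpow_mul (by norm_num),
        ← Real.rpow_mul (by norm_num), mul_comm]
    rw [h2]
    exact Real.rpow_le_rpow_of_exponent_le (one_le_pow₀ (by norm_num)) hee
  refine (Finset.sum_le_sum fun i _ => h1 i).trans ((geo_le hw m).trans ?_)
  have h3 : ((2 : ℝ) ^ e') ^ m ≤ (4 * Y) ^ e' := by
    have h2 : ((2 : ℝ) ^ e') ^ m = ((2 : ℝ) ^ m) ^ e' := by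
      rw [← Real.rpow_natCast, ← Real.rpow_natCast, ← Real.rpow_mul (by norm_num),
        ← Real.rpow_mul (by norm_num), mul_comm]
    rw [h2]
    exact Real.rpow_le_rpow (by positivity) hm he.le
  rw [Real.mul_rpow (by norm_num) hY.le] at h3
  have h4 : 0 < (2 : ℝ) ^ e' - 1 := by linarith
  calc ((2 : ℝ) ^ e') ^ m * ((2 : ℝ) ^ e' / ((2 : ℝ) ^ e' - 1))
      ≤ (4 ^ e' * Y ^ e') * ((2 : ℝ) ^ e' / ((2 : ℝ) ^ e' - 1)) := by gcongr
    _ = _ := by ring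

lemma num1 {N R : ℝ} (hN : 1 ≤ N) (hR : 0 < R) {vb C2 : ℝ} (hvb : 0 < vb) (hC2 : 0 < C2)
    {k β s q ε e A γ θ : ℝ} (hs : 1 < s) (hsq : 1 / s + 1 / q = 1)
    (hA : A = k * (1 / s - 1 / 2) + e / 2) (hγ : (1 + ε) * A ≤ θ + 1 / 2 + γ) (hγ0 : γ ≤ 0) :
    (vb * (N ^ (1 + ε) / R) ^ k) ^ (1 - s / 2) *
      (C2 * (R ^ (k - 2 * β / q) * N ^ (-1 : ℝ) * (N ^ (1 + ε)) ^ e)) ^ (s / 2) ≤
    vb ^ (1 - s / 2) * C2 ^ (s / 2) * (N ^ (θ * s) * R ^ ((k - β) * s / q)) := by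
  have hs0 : 0 < s := by linarith
  have hN0 : 0 < N := by linarith
  have hq : s / q = s - 1 := by
    have h1 : s * (1 / s + 1 / q) = s := by rw [hsq, mul_one]
    have h2 : s * (1 / s) = 1 := by field_simp
    have h3 : s / q = s * (1 / q) := by ring
    rw [h3]; linarith
  obtain ⟨a, ha⟩ : ∃ a, N = Real.exp a := ⟨Real.log N, (Real.exp_log hN0).symm⟩
  obtain ⟨b, hb⟩ : ∃ b, R = Real.exp b := ⟨Real.log R, (Real.exp_log hR).symm⟩
  have ha0 : 0 ≤ a := by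
    rw [ha] at hN
    exact Real.one_le_exp_iff.1 hN
  have e1 : (N ^ (1 + ε) / R) ^ k = Real.exp ((a * (1 + ε) - b) * k) := by
    rw [ha, hb, ← Real.exp_mul, ← Real.exp_sub, ← Real.exp_mul]
  have e2 : R ^ (k - 2 * β / q) * N ^ (-1 : ℝ) * (N ^ (1 + ε)) ^ e =
      Real.exp (b * (k - 2 * β / q) + a * (-1) + a * (1 + ε) * e) := by
    rw [ha, hb, ← Real.exp_mul, ← Real.exp_mul, ← Real.exp_mul, ← Real.exp_mul, ← Real.exp_add,
      ← Real.exp_add]
  have e3 : N ^ (θ * s) * R ^ ((k - β) * s / q) = Real.exp (a * (θ * s) + b * ((k - β) * s / q)) := by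
    rw [ha, hb, ← Real.exp_mul, ← Real.exp_mul, ← Real.exp_add]
  rw [e1, e2, e3, Real.mul_rpow hvb.le (Real.exp_pos _).le, Real.mul_rpow hC2.le (Real.exp_pos _).le,
    ← Real.exp_mul, ← Real.exp_mul]
  have e4 : ∀ p u v w : ℝ, p * Real.exp u * (w * Real.exp v) = p * w * Real.exp (u + v) := by
    intro p u v w
    rw [Real.exp_add]; ring
  rw [e4]
  apply mul_le_mul_of_nonneg_left _ (by positivity)
  apply Real.exp_le_exp.2
  have e5 : (a * (1 + ε) - b) * k * (1 - s / 2) +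
        (b * (k - 2 * β / q) + a * (-1) + a * (1 + ε) * e) * (s / 2) =
      a * s * ((1 + ε) * A - 1 / 2) + b * (k * (s / q) - β * (s / q)) := by
    rw [hA]
    have h5 : k * (1 - s / 2) = s * (k * (1 / s - 1 / 2)) := by field_simp
    have h6 : (a * (1 + ε) - b) * k * (1 - s / 2) = (a * (1 + ε) - b) * (k * (1 - s / 2)) := by ring
    have h7 : b * (k - 2 * β / q) * (s / 2) = b * (k * (s / 2)) - b * (β * (s / q)) := by ring
    have h8 : b * (k * (1 - s / 2)) = b * k - b * k * (s / 2) := by ring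
    rw [h6, hq]
    have h9 : (b * (k - 2 * β / q) + a * (-1) + a * (1 + ε) * e) * (s / 2) =
        b * (k - 2 * β / q) * (s / 2) + (a * (-1) + a * (1 + ε) * e) * (s / 2) := by ring
    rw [h9, h7, hq, sub_mul (a * (1 + ε)) b, h8, h5]
    ring
  rw [e5]
  have e6 : b * (k * (s / q) - β * (s / q)) = b * ((k - β) * s / q) := by ring
  rw [e6]
  have e7 : a * s * ((1 + ε) * A - 1 / 2) ≤ a * (θ * s) := by
    have : a * (θ * s) = a * s * θ := by ring
    rw [this]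
    apply mul_le_mul_of_nonneg_left _ (by positivity)
    linarith
  linarith

lemma num2 {N R : ℝ} (hN : 1 ≤ N) (hR : 0 < R) {C3 C4 C5 : ℝ} (hC3 : 0 < C3) (hC4 : 0 < C4)
    (hC5 : 0 < C5) {k β s q θ τ : ℝ} (hs : 1 < s) (hsq : 1 / s + 1 / q = 1)
    (hτ : k + β * (s / q) ≤ τ * s) (hθ : -1 ≤ θ) :
    (C3 * (R ^ k * N ^ (-1 : ℝ)) * N ^ (-τ) * (C5 * (R / N) ^ (-β))) ^ (s / q) *
      (C3 * (R ^ k * N ^ (-1 : ℝ)) * N ^ (-τ) * (C4 * (R / N) ^ (-k))) ≤
    (C3 * C5) ^ (s / q) * (C3 * C4) * (N ^ (θ * s) * R ^ ((k - β) * s / q)) := by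
  have hs0 : 0 < s := by linarith
  have hN0 : 0 < N := by linarith
  have hq : s / q = s - 1 := by
    have h1 : s * (1 / s + 1 / q) = s := by rw [hsq, mul_one]
    have h2 : s * (1 / s) = 1 := by field_simp
    have h3 : s / q = s * (1 / q) := by ring
    rw [h3]; linarith
  obtain ⟨a, ha⟩ : ∃ a, N = Real.exp a := ⟨Real.log N, (Real.exp_log hN0).symm⟩
  obtain ⟨b, hb⟩ : ∃ b, R = Real.exp b := ⟨Real.log R, (Real.exp_log hR).symm⟩
  have ha0 : 0 ≤ a := by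
    rw [ha] at hN
    exact Real.one_le_exp_iff.1 hN
  have e1 : ∀ x : ℝ, R ^ k * N ^ (-1 : ℝ) * N ^ (-τ) * (R / N) ^ (-x) =
      Real.exp (b * k + a * (-1) + a * (-τ) + (b - a) * (-x)) := by
    intro x
    rw [ha, hb, ← Real.exp_mul, ← Real.exp_mul, ← Real.exp_mul, ← Real.exp_sub, ← Real.exp_mul,
      ← Real.exp_add, ← Real.exp_add, ← Real.exp_add]
  have e2 : ∀ c x : ℝ, C3 * (R ^ k * N ^ (-1 : ℝ)) * N ^ (-τ) * (c * (R / N) ^ (-x)) =
      (C3 * c) * Real.exp (b * k + a * (-1) + a * (-τ) + (b - a) * (-x)) := by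
    intro c x
    rw [← e1 x]; ring
  have e3 : N ^ (θ * s) * R ^ ((k - β) * s / q) = Real.exp (a * (θ * s) + b * ((k - β) * s / q)) := by
    rw [ha, hb, ← Real.exp_mul, ← Real.exp_mul, ← Real.exp_add]
  rw [e2, e2, e3, Real.mul_rpow (by positivity) (Real.exp_pos _).le, ← Real.exp_mul]
  have e4 : ∀ p u v w : ℝ, p * Real.exp u * (w * Real.exp v) = p * w * Real.exp (u + v) := by
    intro p u v w
    rw [Real.exp_add]; ring
  rw [e4]
  have hsq0 : 0 < s / q := by rw [hq]; linarith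
  apply mul_le_mul_of_nonneg_left _ (by positivity)
  apply Real.exp_le_exp.2
  have e5 : (b * k + a * (-1) + a * (-τ) + (b - a) * (-β)) * (s / q) +
        (b * k + a * (-1) + a * (-τ) + (b - a) * (-k)) =
      b * ((k - β) * (s / q)) + a * (-(1 + τ) * (s / q + 1) + β * (s / q) + k) := by ring
  have e6 : b * ((k - β) * s / q) = b * ((k - β) * (s / q)) := by ring
  rw [e5, e6]
  have e7 : -(1 + τ) * (s / q + 1) + β * (s / q) + k ≤ θ * s := by
    have h1 : s / q + 1 = s := by rw [hq]; ring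
    rw [h1]
    nlinarith
  have := mul_le_mul_of_nonneg_left e7 ha0
  linarith

theorem piece_dual (hn : 2 ≤ n) {h : ℝ → ℝ} (hh : Bmp h) {β s q θ : ℝ} (hβ0 : 0 ≤ β)
    (hβn : β ≤ n) (hs : 1 < s) (hs2 : s ≤ 2) (hsq : 1 / s + 1 / q = 1)
    (hθ : n * (1 / s - 1 / 2) - 1 / 2 + max 0 (2 * β / q - dd n) / 2 < θ) :
    ∃ C : ℝ, 0 < C ∧ ∀ N R : ℝ, 1 ≤ N → 0 < R → R ≤ 1 → ∀ ρ : E n → ℝ, Measurable ρ →
    (∀ x, R / 2 ≤ ρ x) → (∀ x, ρ x ≤ R) → ∀ (μ : Measure (E n)) [IsFiniteMeasure μ], Dm β μ →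
    ∀ g : E n → ℂ, Measurable g → (∃ B : ℝ, ∀ x, ‖g x‖ ≤ B) →
    ∫⁻ y, ‖U h N ρ μ g y‖ₑ ^ s ≤
      ENNReal.ofReal (C * (N ^ (θ * s) * R ^ (((n : ℝ) - β) * s / q))) * ∫⁻ x, ‖g x‖ₑ ^ s ∂μ := by
  have hd := dd_pos hn
  have hs0 : 0 < s := by linarith
  have hq0 : 0 < q := by
    have h1 : 1 / s < 1 := by rw [div_lt_one hs0]; exact hs
    have h2 : 0 < 1 / q := by linarith
    exact one_div_pos.1 h2
  have hn0 : (0 : ℝ) < n := by
    have : 0 < n := by omega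
    exact_mod_cast this
  set e : ℝ := max 0 (2 * β / q - dd n) with he
  have he0 : 0 ≤ e := le_max_left _ _
  set A0 : ℝ := n * (1 / s - 1 / 2) + e / 2 with hA0
  have hs12 : 0 ≤ 1 / s - 1 / 2 := by
    have := one_div_le_one_div_of_le hs0 hs2
    linarith
  have hA00 : 0 ≤ A0 := by positivity
  set γ : ℝ := θ + 1 / 2 - A0 with hγ
  have hγ0 : 0 < γ := by rw [hγ, hA0]; linarith
  set η : ℝ := γ / 2 with hη
  have hη0 : 0 < η := by positivity
  set ε : ℝ := min 1 (γ / (2 * (A0 + 1))) with hε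
  have hε0 : 0 < ε := by
    rw [hε]
    exact lt_min one_pos (by positivity)
  have hε1 : ε ≤ 1 := min_le_left _ _
  have hεA : ε * A0 ≤ γ / 2 := by
    have h1 : ε ≤ γ / (2 * (A0 + 1)) := min_le_right _ _
    have h2 : ε * (A0 + 1) ≤ γ / 2 := by
      calc ε * (A0 + 1) ≤ γ / (2 * (A0 + 1)) * (A0 + 1) := by gcongr
        _ = γ / 2 := by field_simp
    nlinarith
  -- exponent bound
  set A : ℝ := n * (1 / s - 1 / 2) + (e + η) / 2 with hA
  have hAle : (1 + ε) * A ≤ θ + 1 / 2 + 0 := by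
    have h1 : A = A0 + η / 2 := by rw [hA, hA0]; ring
    have h2 : (1 + ε) * A = A0 + ε * A0 + (1 + ε) * η / 2 := by rw [h1]; ring
    have h3 : (1 + ε) * η / 2 ≤ γ / 2 := by
      rw [hη]; nlinarith
    rw [h2]
    have h4 : θ + 1 / 2 = A0 + γ := by rw [hγ]; ring
    linarith
  have hθ1 : -1 ≤ θ := by
    have : θ = A0 + γ - 1 / 2 := by rw [hγ]; ring
    linarith
  -- constants
  obtain ⟨C1, hC1, HL2⟩ := U_L2 hn hh
  set D0 : ℝ := (n : ℝ) + 1 with hD0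
  obtain ⟨a, ha⟩ : ∃ a : ℕ, (n + β * (s / q)) / (ε * s) + D0 ≤ 2 * (a : ℝ) := by
    obtain ⟨a, ha⟩ := exists_nat_ge ((n + β * (s / q)) / (ε * s) + D0)
    refine ⟨a, ha.trans ?_⟩
    have : (0 : ℝ) ≤ a := Nat.cast_nonneg a
    linarith
  obtain ⟨C0, hC0, HK0⟩ := kern_pt (n := n) hn hh 0
  obtain ⟨C3, hC3, HK⟩ := kern_pt (n := n) hn hh a
  obtain ⟨C4', hC4', HV⟩ := dm_int (n := n) (γ := (n : ℝ)) (D := D0) (by positivity)
    (by rw [hD0]; linarith)
  obtain ⟨C5, hC5, HM⟩ := dm_int (n := n) (γ := β) (D := D0) (by positivity)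
    (by rw [hD0]; linarith)
  set vb : ℝ := (volume : Measure (E n)).real (closedBall 0 1) with hvb
  have hvb0 : 0 < vb := by
    rw [hvb, measureReal_def]
    exact ENNReal.toReal_pos (measure_closedBall_pos _ _ one_pos).ne' measure_closedBall_lt_top.ne
  have hvol : ∀ (x : E n) (r : ℝ), 0 ≤ r → volume (closedBall x r) = ENNReal.ofReal (vb * r ^ n) := by
    intro x r hr
    rw [← ofReal_measureReal measure_closedBall_lt_top.ne, Measure.addHaar_real_closedBall _ _ hr,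
      finrank_euclideanSpace_fin]
    congr 1
    rw [mul_comm, hvb]
    congr 1
    rw [Measure.addHaar_real_closedBall _ _ zero_le_one]
    simp
  set C4 : ℝ := C4' * vb with hC4
  have hC40 : 0 < C4 := by positivity
  set τ : ℝ := ε * (2 * a - D0) with hτ
  have hτs : n + β * (s / q) ≤ τ * s := by
    have h1 : (n + β * (s / q)) / (ε * s) ≤ 2 * a - D0 := by linarith
    rw [div_le_iff₀ (by positivity)] at h1
    calc n + β * (s / q) ≤ (2 * a - D0) * (ε * s) := h1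
      _ = _ := by rw [hτ]; ring
  have h2aD : 0 ≤ 2 * (a : ℝ) - D0 := by
    have : 0 ≤ (n + β * (s / q)) / (ε * s) := by positivity
    linarith
  set Cη : ℝ := (2 : ℝ) ^ (e + η) / ((2 : ℝ) ^ (e + η) - 1) * 4 ^ (e + η) with hCη
  have hw1 : 1 < (2 : ℝ) ^ (e + η) := Real.one_lt_rpow (by norm_num) (by linarith)
  have hCη0 : 0 < Cη := by
    have : 0 < (2 : ℝ) ^ (e + η) - 1 := by linarith
    positivity
  set C2 : ℝ := C1 * 2 ^ dd n * Cη with hC2
  have hC20 : 0 < C2 := by positivity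
  refine ⟨2 ^ (s - 1) * (2 ^ ((n : ℝ) * (s / 2)) * (vb ^ (1 - s / 2) * C2 ^ (s / 2)) +
    (C3 * C5) ^ (s / q) * (C3 * C4)), by positivity, ?_⟩
  intro N R hN hR hR1 ρ hρ hρ1 hρ2 μ _ hμ g hg ⟨B, hB⟩
  have hN0 : 0 < N := by linarith
  have hρ0 : ∀ x, 0 < ρ x := fun x => by linarith [hρ1 x]
  set Y : ℝ := N ^ (1 + ε) with hY
  have hY0 : 0 < Y := by positivity
  have hY1 : 1 ≤ Y := Real.one_le_rpow hN (by linarith)
  set L : ℝ := Y / R with hL
  have hL0 : 0 < L := by positivity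
  obtain ⟨k, hk1, hk2⟩ := exists_nat_pow_near (x := 2 * Y) (y := (2 : ℝ)) (by linarith) (by norm_num)
  set m : ℕ := k + 1 with hm
  have hm1 : R * (2 * L) ≤ 2 ^ m := by
    have : R * (2 * L) = 2 * Y := by rw [hL]; field_simp
    rw [this]; exact hk2.le
  have hm2 : (2 : ℝ) ^ m ≤ 4 * Y := by
    rw [hm, pow_succ]; linarith
  set ΛR : ℝ := C2 * (R ^ ((n : ℝ) - 2 * β / q) * N ^ (-1 : ℝ) * Y ^ (e + η)) with hΛR
  have hΛR0 : 0 < ΛR := by positivity
  -- the local `L^2` bound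
  have hΛ : ∀ u, ∫⁻ y, ‖U h N ρ μ (gu g L u) y‖ₑ ^ 2 ≤
      ENNReal.ofReal ΛR * (∫⁻ x, ‖gu g L u x‖ₑ ^ s ∂μ) ^ (2 / s) := by
    intro u
    have hgum := gu_meas hg L u
    have hgub : ∀ x, ‖gu g L u x‖ ≤ B := by
      intro x
      unfold gu
      by_cases hx : x ∈ closedBall u L
      · rw [indicator_of_mem hx]; exact hB x
      · rw [indicator_of_notMem hx, norm_zero]; exact (norm_nonneg _).trans (hB 0)
    have h1 := HL2 N R hN ρ hρ hρ0 hρ2 μ (gu g L u) hgum ⟨B, hgub⟩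
    refine h1.trans ?_
    have h2 := quad hn (β := β) hs hsq hs2 hμ hR hR1 (c := C1 * (R ^ n / N)) (by positivity) hm1
      hgum (u := u) (fun x hx => by
        unfold gu
        rw [indicator_of_notMem]
        rw [mem_closedBall, dist_eq_norm, not_le]; exact hx)
    refine h2.trans ?_
    gcongr
    have h3 := sum_le (e := 2 * β / q - dd n) (e' := e + η)
      ((le_max_right 0 _).trans (by linarith)) (by linarith) hY0 hm2
    calc C1 * (R ^ n / N) * (2 ^ dd n * R ^ (-(2 * β / q)) *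
          ∑ i ∈ Finset.range (m + 1), ((2 : ℝ) ^ i) ^ (2 * β / q - dd n))
        ≤ C1 * (R ^ n / N) * (2 ^ dd n * R ^ (-(2 * β / q)) *
          ((2 : ℝ) ^ (e + η) / ((2 : ℝ) ^ (e + η) - 1) * 4 ^ (e + η) * Y ^ (e + η))) := by gcongr
      _ = ΛR := by
          rw [hΛR, hC2, hCη, sub_eq_add_neg (n : ℝ), Real.rpow_add hR, Real.rpow_natCast,
            Real.rpow_neg hN0.le, Real.rpow_one]
          ring
  -- the tail
  set Z : ℝ := C3 * (R ^ (n : ℝ) * N ^ (-1 : ℝ)) * N ^ (-τ) with hZ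
  have hZ0 : 0 < Z := by positivity
  set w : E n → E n → ℝ≥0∞ := fun x y =>
    ENNReal.ofReal Z * ENNReal.ofReal ((1 + (R / N) * ‖y - x‖) ^ (-D0)) with hw
  have hwm : Measurable (fun p : E n × E n => w p.1 p.2) := by
    have : Measurable (fun p : E n × E n => (1 + (R / N) * ‖p.2 - p.1‖) ^ (-D0)) :=
      Measurable.pow_const (by fun_prop) _
    exact this.ennreal_ofReal.const_mul _
  have hwk : ∀ x y : E n, L < dist x y → ‖𝓕 (prof h N (ρ x) : E n → ℂ) (y - x)‖ₑ ≤ w x y := by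
    intro x y hxy
    rw [hw]
    simp only
    rw [← ENNReal.ofReal_mul hZ0.le, ← ofReal_norm]
    apply ENNReal.ofReal_le_ofReal
    refine (HK N R (ρ x) hN hR (hρ1 x) (hρ2 x) (y - x)).trans ?_
    have hnn := norm_nonneg (y - x)
    have h1 : L < ‖y - x‖ := by rwa [dist_comm, dist_eq_norm] at hxy
    have h2 : N ^ ε ≤ 1 + (R / N) * ‖y - x‖ := by
      have h3 : (R / N) * L = N ^ ε := by
        rw [hL, hY, Real.rpow_add hN0, Real.rpow_one]
        field_simp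
      have h4 : (R / N) * L ≤ (R / N) * ‖y - x‖ := by gcongr
      rw [← h3]; linarith
    have h5 : (1 + (R / N) * ‖y - x‖) ^ (-(2 * a : ℝ)) ≤
        N ^ (-τ) * (1 + (R / N) * ‖y - x‖) ^ (-D0) := by
      have h6 : (0 : ℝ) < 1 + (R / N) * ‖y - x‖ := by positivity
      have h7 : -(2 * a : ℝ) = -(2 * a - D0) + -D0 := by ring
      rw [h7, Real.rpow_add h6]
      gcongr
      have h8 : N ^ (-τ) = (N ^ ε) ^ (-(2 * a - D0)) := by
        rw [← Real.rpow_mul hN0.le, hτ]; congr 1; ring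
      rw [h8]
      exact Real.rpow_le_rpow_of_nonpos (by positivity) h2 (by linarith)
    calc C3 * (R ^ n / N) * (1 + (R / N) * ‖y - x‖) ^ (-(2 * a : ℝ))
        ≤ C3 * (R ^ n / N) * (N ^ (-τ) * (1 + (R / N) * ‖y - x‖) ^ (-D0)) := by gcongr
      _ = Z * (1 + (R / N) * ‖y - x‖) ^ (-D0) := by
          rw [hZ, Real.rpow_natCast, Real.rpow_neg hN0.le 1, Real.rpow_one]
          ring
  have hmw : ∀ x : E n, Measurable (fun y : E n =>
      ENNReal.ofReal ((1 + (R / N) * ‖y - x‖) ^ (-D0))) := fun x =>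
    (Measurable.pow_const (by fun_prop) _).ennreal_ofReal
  have ha1 : ∀ x, ∫⁻ y, w x y ≤ ENNReal.ofReal (Z * (C4 * (R / N) ^ (-(n : ℝ)))) := by
    intro x
    rw [hw]
    simp only
    rw [lintegral_const_mul _ (hmw x), ENNReal.ofReal_mul hZ0.le]
    gcongr
    have h1 := HV volume vb (R / N) hvb0.le (by positivity) x (fun r hr => by
      have hr0 : 0 ≤ r := le_trans (by positivity) hr
      rw [hvol x r hr0, Real.rpow_natCast])
    simp_rw [norm_sub_rev _ x]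
    exact h1
  have hb1 : ∀ y, ∫⁻ x, w x y ∂μ ≤ ENNReal.ofReal (Z * (C5 * (R / N) ^ (-β))) := by
    intro y
    rw [hw]
    simp only
    have hmw2 : Measurable (fun x : E n =>
      ENNReal.ofReal ((1 + (R / N) * ‖y - x‖) ^ (-D0))) :=
      (Measurable.pow_const (by fun_prop) _).ennreal_ofReal
    rw [lintegral_const_mul _ hmw2, ENNReal.ofReal_mul hZ0.le]
    gcongr
    have h1 := HM μ 1 (R / N) zero_le_one (by positivity) y (fun r hr => by
      rw [one_mul]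
      refine hμ y r (le_trans ?_ hr)
      rw [one_div_div, le_div_iff₀ hR, one_mul]
      linarith)
    rw [mul_one] at h1
    exact h1
  have hV := schur (μ := μ) (ν := (volume : Measure (E n))) hwm ha1 hb1 hg.enorm hs hsq
  have hBk : ∀ x y : E n, ‖𝓕 (prof h N (ρ x) : E n → ℂ) (y - x)‖ ≤ C0 * (R ^ n / N) := by
    intro x y
    refine (HK0 N R (ρ x) hN hR (hρ1 x) (hρ2 x) (y - x)).trans (le_of_eq ?_)
    simp
  have hloc := loc hh hρ hg hB hBk (μ := μ) hwk hwm hs hs2 hΛ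
  set I : ℝ≥0∞ := ∫⁻ x, ‖g x‖ₑ ^ s ∂μ with hI
  set J : ℝ≥0∞ := ∫⁻ y, ‖U h N ρ μ g y‖ₑ ^ s with hJ
  rw [hvol 0 L hL0.le, hvol 0 (2 * L) (by positivity)] at hloc
  have hv1 : 0 < vb * L ^ n := by positivity
  have hv1s : ENNReal.ofReal (vb * L ^ n) ^ s = ENNReal.ofReal ((vb * L ^ n) ^ s) :=
    ENNReal.ofReal_rpow_of_pos hv1
  have h2s : (2 : ℝ≥0∞) ^ (s - 1) = ENNReal.ofReal (2 ^ (s - 1)) := by
    rw [← ENNReal.ofReal_rpow_of_pos (by norm_num)]
    norm_num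
  -- both terms
  have hT1 : ENNReal.ofReal (vb * (2 * L) ^ n) ^ (s / 2) * ENNReal.ofReal ΛR ^ (s / 2) *
      ENNReal.ofReal (vb * L ^ n) = ENNReal.ofReal ((vb * L ^ n) ^ s) *
      ENNReal.ofReal (2 ^ ((n : ℝ) * (s / 2)) * ((vb * L ^ n) ^ (1 - s / 2) * ΛR ^ (s / 2))) := by
    rw [ENNReal.ofReal_rpow_of_pos (by positivity), ENNReal.ofReal_rpow_of_pos hΛR0,
      ← ENNReal.ofReal_mul (by positivity), ← ENNReal.ofReal_mul (by positivity),
      ← ENNReal.ofReal_mul (by positivity)]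
    congr 1
    have h1 : vb * (2 * L) ^ n = 2 ^ (n : ℝ) * (vb * L ^ n) := by
      rw [mul_pow, Real.rpow_natCast]; ring
    rw [h1, Real.mul_rpow (by positivity) hv1.le, ← Real.rpow_mul (by norm_num)]
    have h2 : (vb * L ^ n) ^ s * (vb * L ^ n) ^ (1 - s / 2) = (vb * L ^ n) ^ (s / 2) * (vb * L ^ n) := by
      rw [← Real.rpow_add hv1, show s + (1 - s / 2) = s / 2 + 1 by ring, Real.rpow_add hv1,
        Real.rpow_one]
    calc 2 ^ ((n : ℝ) * (s / 2)) * (vb * L ^ n) ^ (s / 2) * ΛR ^ (s / 2) * (vb * L ^ n)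
        = 2 ^ ((n : ℝ) * (s / 2)) * ((vb * L ^ n) ^ (s / 2) * (vb * L ^ n)) * ΛR ^ (s / 2) := by ring
      _ = _ := by rw [← h2]; ring
  rw [hv1s, hT1, h2s] at hloc
  have hloc2 : ENNReal.ofReal ((vb * L ^ n) ^ s) * J ≤ ENNReal.ofReal ((vb * L ^ n) ^ s) *
      (ENNReal.ofReal (2 ^ (s - 1)) *
      (ENNReal.ofReal (2 ^ ((n : ℝ) * (s / 2)) * ((vb * L ^ n) ^ (1 - s / 2) * ΛR ^ (s / 2))) * I +
      ∫⁻ y, (∫⁻ x, w x y * ‖g x‖ₑ ∂μ) ^ s)) := by
    refine hloc.trans (le_of_eq ?_)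
    ring
  have hne0 : ENNReal.ofReal ((vb * L ^ n) ^ s) ≠ 0 := by
    rw [Ne, ENNReal.ofReal_eq_zero, not_le]; positivity
  have hJ1 := (ENNReal.mul_le_mul_iff_right hne0 ENNReal.ofReal_ne_top).1 hloc2
  refine hJ1.trans ?_
  have hk : (vb * L ^ n) = vb * (N ^ (1 + ε) / R) ^ (n : ℝ) := by rw [Real.rpow_natCast]
  have hnum1 := num1 (k := (n : ℝ)) (β := β) (e := e + η) (A := A) (θ := θ) (γ := 0) hN hR hvb0 hC20
    hs hsq hA hAle le_rfl
  have hnum2 := num2 (k := (n : ℝ)) (β := β) (θ := θ) hN hR hC3 hC40 hC5 hs hsq hτs hθ1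
  rw [← hk] at hnum1
  set X : ℝ := N ^ (θ * s) * R ^ (((n : ℝ) - β) * s / q) with hX
  have hX0 : 0 < X := by positivity
  have hfin2 : ∫⁻ y, (∫⁻ x, w x y * ‖g x‖ₑ ∂μ) ^ s ≤
      ENNReal.ofReal ((C3 * C5) ^ (s / q) * (C3 * C4) * X) * I := by
    refine hV.trans ?_
    gcongr
    rw [ENNReal.ofReal_rpow_of_pos (by positivity), ← ENNReal.ofReal_mul (by positivity)]
    exact ENNReal.ofReal_le_ofReal hnum2
  calc ENNReal.ofReal (2 ^ (s - 1)) *
      (ENNReal.ofReal (2 ^ ((n : ℝ) * (s / 2)) * ((vb * L ^ n) ^ (1 - s / 2) * ΛR ^ (s / 2))) * I +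
      ∫⁻ y, (∫⁻ x, w x y * ‖g x‖ₑ ∂μ) ^ s)
      ≤ ENNReal.ofReal (2 ^ (s - 1)) *
      (ENNReal.ofReal (2 ^ ((n : ℝ) * (s / 2)) * (vb ^ (1 - s / 2) * C2 ^ (s / 2) * X)) * I +
      ENNReal.ofReal ((C3 * C5) ^ (s / q) * (C3 * C4) * X) * I) := by
        gcongr
    _ = _ := by
        rw [← add_mul, ← ENNReal.ofReal_add (by positivity) (by positivity), ← mul_assoc,
          ← ENNReal.ofReal_mul (by positivity)]
        congr 2
        ring

end Pool.Agent.W774.TB
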