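import Pool.Agent.W774.TB.Piece
set_option autoImplicit false

/-! The bound for one dyadic piece of the operator with variable radius. -/

namespace Pool.Agent.W774.TB

open Set Filter MeasureTheory Metric
open scoped Topology ContDiff FourierTransform ENNReal RealInnerProductSpace ComplexConjugate
open Pool.Agent.W773.BRA (prof Bmp prof_contDiff prof_compact prof_norm_le)

variable {n : ℕ}

/-- the operator with variable radius -/
noncomputable def TV (h : ℝ → ℝ) (N : ℝ) (ρ : E n → ℝ) (f : E n → ℂ) (x : E n) : ℂ :=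
  Pool.Agent.W773.BRA.T h N (ρ x) f x

lemma TV_eq {h : ℝ → ℝ} (hh : Bmp h) {N : ℝ} (hN : 0 < N) {ρ : E n → ℝ} (hρ0 : ∀ x, 0 < ρ x)
    {f : E n → ℂ} (hf : Integrable f) (x : E n) :
    TV h N ρ f x = ∫ y, 𝓕 (prof h N (ρ x) : E n → ℂ) (y - x) * f y :=
  Pool.Agent.W773.BRA.T_kernel hh hN (hρ0 x) hf x

lemma TV_meas {h : ℝ → ℝ} (hh : Bmp h) {N : ℝ} (hN : 0 < N) {ρ : E n → ℝ} (hρ : Measurable ρ)
    (hρ0 : ∀ x, 0 < ρ x) {f : E n → ℂ} (hf : Integrable f) (hfm : Measurable f) :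
    Measurable (TV h N ρ f) := by
  have h1 : TV h N ρ f = fun x => ∫ y, 𝓕 (prof h N (ρ x) : E n → ℂ) (y - x) * f y :=
    funext fun x => TV_eq hh hN hρ0 hf x
  rw [h1]
  have h2 : StronglyMeasurable (fun z : E n × E n =>
      𝓕 (prof h N (ρ z.1) : E n → ℂ) (z.2 - z.1) * f z.2) := by
    apply Measurable.stronglyMeasurable
    exact (Kf_meas hh N hρ measurable_fst measurable_snd).mul (hfm.comp measurable_snd)
  exact h2.integral_prod_right'.measurable

lemma TV_le {h : ℝ → ℝ} (hh : Bmp h) {N : ℝ} (hN : 0 < N) {ρ : E n → ℝ}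
    (hρ0 : ∀ x, 0 < ρ x) {f : E n → ℂ} (hf : Integrable f) {Bk : ℝ}
    (hBk : ∀ x y : E n, ‖𝓕 (prof h N (ρ x) : E n → ℂ) (y - x)‖ ≤ Bk) (x : E n) :
    ‖TV h N ρ f x‖ ≤ Bk * ∫ y, ‖f y‖ := by
  rw [TV_eq hh hN hρ0 hf, ← integral_const_mul]
  apply norm_integral_le_of_norm_le (hf.norm.const_mul Bk)
  filter_upwards with y
  rw [norm_mul]
  gcongr
  exact hBk x y

/-- duality between the two operators -/
lemma dual_eq {h : ℝ → ℝ} (hh : Bmp h) {N : ℝ} (hN : 0 < N) {ρ : E n → ℝ} (hρ : Measurable ρ)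
    (hρ0 : ∀ x, 0 < ρ x) {f : E n → ℂ} (hf : Integrable f) (hfm : Measurable f) {Bk : ℝ}
    (hBk : ∀ x y : E n, ‖𝓕 (prof h N (ρ x) : E n → ℂ) (y - x)‖ ≤ Bk)
    {μ : Measure (E n)} [IsFiniteMeasure μ] {g : E n → ℂ} (hg : Measurable g) {B : ℝ}
    (hB : ∀ x, ‖g x‖ ≤ B) :
    ∫ x, g x * TV h N ρ f x ∂μ = ∫ y, f y * U h N ρ μ g y := by
  have hB0 : 0 ≤ B := (norm_nonneg _).trans (hB 0)
  have hBk0 : 0 ≤ Bk := (norm_nonneg _).trans (hBk 0 0)
  have e1 : ∀ x, g x * TV h N ρ f x =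
      ∫ y, g x * (𝓕 (prof h N (ρ x) : E n → ℂ) (y - x) * f y) := by
    intro x
    rw [TV_eq hh hN hρ0 hf, integral_const_mul]
  simp_rw [e1]
  rw [integral_integral_swap]
  · apply integral_congr_ae
    filter_upwards with y
    unfold U
    rw [← integral_const_mul]
    apply integral_congr_ae
    filter_upwards with x
    ring
  · have h1 : Integrable (fun z : E n × E n => (B * Bk) * ‖f z.2‖) (μ.prod volume) :=
      Integrable.mul_prod (f := fun _ : E n => B * Bk) (integrable_const _) hf.norm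
    refine h1.mono' ?_ (Eventually.of_forall fun z => ?_)
    · apply Measurable.aestronglyMeasurable
      exact (hg.comp measurable_fst).mul
        ((Kf_meas hh N hρ measurable_fst measurable_snd).mul (hfm.comp measurable_snd))
    · simp only [Function.uncurry_def]
      rw [norm_mul, norm_mul, ← mul_assoc]
      gcongr
      · exact hB _
      · exact hBk _ _

theorem piece (hn : 2 ≤ n) {h : ℝ → ℝ} (hh : Bmp h) {β q θ : ℝ} (hβ0 : 0 ≤ β)
    (hβn : β ≤ n) (hq : 2 ≤ q)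
    (hθ1 : ((n : ℝ) - 1) / 2 - n / q < θ) (hθ2 : ((n : ℝ) - 1) / 4 - (n - β) / q < θ) :
    ∃ C : ℝ, 0 < C ∧ ∀ N R : ℝ, 1 ≤ N → 0 < R → R ≤ 1 → ∀ ρ : E n → ℝ, Measurable ρ →
    (∀ x, R / 2 ≤ ρ x) → (∀ x, ρ x ≤ R) → ∀ (μ : Measure (E n)) [IsFiniteMeasure μ], Dm β μ →
    ∀ f : E n → ℂ, Integrable f → Measurable f →
    ∫⁻ x, ‖TV h N ρ f x‖ₑ ^ q ∂μ ≤
      ENNReal.ofReal (C * (N ^ (θ * q) * R ^ ((n : ℝ) - β))) * ∫⁻ y, ‖f y‖ₑ ^ q := by
  have hq0 : 0 < q := by linarith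
  set s : ℝ := q / (q - 1) with hs
  have hq1 : 0 < q - 1 := by linarith
  have hs0 : 0 < s := by positivity
  have hs1 : 1 < s := by rw [hs, lt_div_iff₀ hq1]; linarith
  have hs2 : s ≤ 2 := by rw [hs, div_le_iff₀ hq1]; linarith
  have hsq : 1 / s + 1 / q = 1 := by rw [hs]; field_simp; ring
  have h1s : 1 / s = 1 - 1 / q := by linarith
  have hθ : (n : ℝ) * (1 / s - 1 / 2) - 1 / 2 + max 0 (2 * β / q - dd n) / 2 < θ := by
    rw [h1s]
    rcases max_cases 0 (2 * β / q - dd n) with ⟨h1, _⟩ | ⟨h1, _⟩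
    · rw [h1]
      have : (n : ℝ) * (1 - 1 / q - 1 / 2) - 1 / 2 + 0 / 2 = ((n : ℝ) - 1) / 2 - n / q := by ring
      rw [this]; exact hθ1
    · rw [h1]
      unfold dd
      have : (n : ℝ) * (1 - 1 / q - 1 / 2) - 1 / 2 + (2 * β / q - ((n : ℝ) - 1) / 2) / 2 =
          ((n : ℝ) - 1) / 4 - (n - β) / q := by ring
      rw [this]; exact hθ2
  obtain ⟨C, hC, H⟩ := piece_dual hn hh hβ0 hβn hs1 hs2 hsq hθ
  obtain ⟨C0, hC0, HK0⟩ := kern_pt (n := n) hn hh 0
  refine ⟨C ^ (q / s), by positivity, ?_⟩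
  intro N R hN hR hR1 ρ hρ hρ1 hρ2 μ _ hμ f hf hfm
  have hN0 : 0 < N := by linarith
  have hρ0 : ∀ x, 0 < ρ x := fun x => by linarith [hρ1 x]
  have hBk : ∀ x y : E n, ‖𝓕 (prof h N (ρ x) : E n → ℂ) (y - x)‖ ≤ C0 * (R ^ n / N) := by
    intro x y
    refine (HK0 N R (ρ x) hN hR (hρ1 x) (hρ2 x) (y - x)).trans (le_of_eq ?_)
    simp
  set φ : E n → ℂ := TV h N ρ f with hφ
  have hφm : Measurable φ := TV_meas hh hN0 hρ hρ0 hf hfm
  set b : ℝ := C0 * (R ^ n / N) * ∫ y, ‖f y‖ with hb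
  have hφb : ∀ x, ‖φ x‖ ≤ b := fun x => TV_le hh hN0 hρ0 hf hBk x
  have hb0 : 0 ≤ b := (norm_nonneg _).trans (hφb 0)
  set g : E n → ℂ := fun x => conj (φ x) * ((‖φ x‖ ^ (q - 2) : ℝ) : ℂ) with hg
  have hgm : Measurable g := by
    refine (Complex.continuous_conj.measurable.comp hφm).mul ?_
    exact Complex.measurable_ofReal.comp (hφm.norm.pow_const _)
  have hgn : ∀ x, ‖g x‖ = ‖φ x‖ ^ (q - 1) := by
    intro x
    rw [hg]
    simp only
    rw [norm_mul, RCLike.norm_conj, Complex.norm_real, Real.norm_eq_abs,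
      abs_of_nonneg (by positivity)]
    rcases (norm_nonneg (φ x)).eq_or_lt with h0 | h0
    · rw [← h0, Real.zero_rpow (by linarith : q - 1 ≠ 0), zero_mul]
    · rw [show q - 1 = 1 + (q - 2) by ring, Real.rpow_add h0, Real.rpow_one]
  have hgb : ∀ x, ‖g x‖ ≤ b ^ (q - 1) := by
    intro x
    rw [hgn]
    exact Real.rpow_le_rpow (norm_nonneg _) (hφb x) hq1.le
  have hD := H N R hN hR hR1 ρ hρ hρ1 hρ2 μ hμ g hgm ⟨_, hgb⟩
  set D : ℝ := C * (N ^ (θ * s) * R ^ (((n : ℝ) - β) * s / q)) with hDdef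
  have hD0 : 0 < D := by positivity
  set X : ℝ≥0∞ := ∫⁻ x, ‖φ x‖ₑ ^ q ∂μ with hX
  have hgs : ∫⁻ x, ‖g x‖ₑ ^ s ∂μ = X := by
    apply lintegral_congr
    intro x
    have h1 : ‖g x‖ₑ = ‖φ x‖ₑ ^ (q - 1) := by
      rw [← ofReal_norm, hgn, ← ENNReal.ofReal_rpow_of_nonneg (norm_nonneg _) hq1.le, ofReal_norm]
    rw [h1, ← ENNReal.rpow_mul]
    congr 1
    rw [hs]; field_simp
  have hXfin : X ≠ ⊤ := by
    have h1 : ∀ x, ‖φ x‖ₑ ^ q ≤ ENNReal.ofReal (b ^ q) := by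
      intro x
      rw [← ofReal_norm, ENNReal.ofReal_rpow_of_nonneg (norm_nonneg _) hq0.le]
      exact ENNReal.ofReal_le_ofReal (Real.rpow_le_rpow (norm_nonneg _) (hφb x) hq0.le)
    refine ((lintegral_mono h1).trans_lt ?_).ne
    rw [lintegral_const]
    exact ENNReal.mul_lt_top ENNReal.ofReal_lt_top (measure_lt_top _ _)
  have hXeq : X = ‖∫ x, g x * φ x ∂μ‖ₑ := by
    have h1 : ∀ x, g x * φ x = ((‖φ x‖ ^ q : ℝ) : ℂ) := by
      intro x
      rw [hg]
      simp only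
      have h2 : conj (φ x) * ((‖φ x‖ ^ (q - 2) : ℝ) : ℂ) * φ x =
          (φ x * conj (φ x)) * ((‖φ x‖ ^ (q - 2) : ℝ) : ℂ) := by ring
      rw [h2, Complex.mul_conj, Complex.normSq_eq_norm_sq, ← Complex.ofReal_mul]
      congr 1
      rcases (norm_nonneg (φ x)).eq_or_lt with h0 | h0
      · rw [← h0, Real.zero_rpow hq0.ne']; simp
      · rw [← Real.rpow_natCast, ← Real.rpow_add h0]
        congr 1
        push_cast; ring
    simp_rw [h1]
    rw [integral_complex_ofReal, ← ofReal_norm, Complex.norm_real, Real.norm_eq_abs,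
      abs_of_nonneg (integral_nonneg fun x => by positivity),
      ofReal_integral_eq_lintegral_ofReal]
    · apply lintegral_congr
      intro x
      rw [← ofReal_norm, ENNReal.ofReal_rpow_of_nonneg (norm_nonneg _) hq0.le]
    · refine Integrable.of_bound (C := b ^ q) (hφm.norm.pow_const q).aestronglyMeasurable
        (Eventually.of_forall fun x => ?_)
      rw [Real.norm_eq_abs, abs_of_nonneg (by positivity)]
      exact Real.rpow_le_rpow (norm_nonneg _) (hφb x) hq0.le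
    · exact Eventually.of_forall fun x => by positivity
  have hdual := dual_eq hh hN0 hρ hρ0 hf hfm hBk (μ := μ) hgm hgb
  rw [← hφ] at hdual
  set F : ℝ≥0∞ := ∫⁻ y, ‖f y‖ₑ ^ q with hF
  have hconj : q.HolderConjugate s := by
    rw [Real.holderConjugate_iff]
    refine ⟨by linarith, by rw [← one_div, ← one_div]; linarith⟩
  have hUm := U_meas hh N hρ (μ := μ) hgm
  have hX1 : X ≤ F ^ (1 / q) * (ENNReal.ofReal D * X) ^ (1 / s) := by
    calc X = ‖∫ y, f y * U h N ρ μ g y‖ₑ := by rw [hXeq, hdual]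
      _ ≤ ∫⁻ y, ‖f y‖ₑ * ‖U h N ρ μ g y‖ₑ := by
          refine (enorm_integral_le_lintegral_enorm _).trans (le_of_eq ?_)
          simp_rw [enorm_mul]
      _ ≤ F ^ (1 / q) * (∫⁻ y, ‖U h N ρ μ g y‖ₑ ^ s) ^ (1 / s) :=
          ENNReal.lintegral_mul_le_Lp_mul_Lq volume hconj hfm.enorm.aemeasurable
            hUm.enorm.aemeasurable
      _ ≤ _ := by
          rw [hgs] at hD
          gcongr
  -- conclude
  have hfinal : X ≤ F * ENNReal.ofReal D ^ (q / s) := by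
    rcases eq_or_ne X 0 with h0 | h0
    · rw [h0]; exact zero_le
    rw [ENNReal.mul_rpow_of_nonneg _ _ (by positivity), ← mul_assoc] at hX1
    have hXs0 : X ^ (1 / s) ≠ 0 := by
      rw [Ne, ENNReal.rpow_eq_zero_iff]
      push Not
      exact ⟨fun h => absurd h h0, fun h => absurd h hXfin⟩
    have hXst : X ^ (1 / s) ≠ ⊤ := ENNReal.rpow_ne_top_of_nonneg (by positivity) hXfin
    have h2 : X = X ^ (1 / q) * X ^ (1 / s) := by
      rw [← ENNReal.rpow_add_of_nonneg _ _ (by positivity) (by positivity),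
        show 1 / q + 1 / s = 1 by linarith, ENNReal.rpow_one]
    have h3 : X ^ (1 / q) * X ^ (1 / s) ≤
        (F ^ (1 / q) * ENNReal.ofReal D ^ (1 / s)) * X ^ (1 / s) := by
      rw [← h2]; exact hX1
    have h4 : X ^ (1 / q) ≤ F ^ (1 / q) * ENNReal.ofReal D ^ (1 / s) :=
      (ENNReal.mul_le_mul_iff_left hXs0 hXst).1 h3
    have h5 := ENNReal.rpow_le_rpow h4 hq0.le
    rw [← ENNReal.rpow_mul, one_div_mul_cancel hq0.ne', ENNReal.rpow_one,
      ENNReal.mul_rpow_of_nonneg _ _ hq0.le, ← ENNReal.rpow_mul, ← ENNReal.rpow_mul,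
      one_div_mul_cancel hq0.ne', ENNReal.rpow_one] at h5
    refine h5.trans (le_of_eq ?_)
    congr 2
    ring
  refine hfinal.trans (le_of_eq ?_)
  rw [mul_comm, ENNReal.ofReal_rpow_of_pos hD0]
  congr 2
  rw [hDdef, Real.mul_rpow hC.le (by positivity), Real.mul_rpow (by positivity) (by positivity),
    ← Real.rpow_mul hN0.le, ← Real.rpow_mul hR.le]
  congr 3
  · field_simp
  · field_simp

end Pool.Agent.W774.TB
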