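import Pool.Agent.W774.TB.Prim
import Pool.Agent.W773.BRA.Q
set_option autoImplicit false

/-! Summation of the pieces. -/

namespace Pool.Agent.W774.TB

open Set Filter MeasureTheory Metric SchwartzMap
open scoped Topology ContDiff FourierTransform ENNReal RealInnerProductSpace ComplexConjugate
open Pool.Agent.W773.BRA (prof Bmp psi chi psi_bmp chi_one chi_zero chi_nonneg chi_le_one
  psi_eq_zero_left psi_contDiff prodF_int)

variable {n : ℕ}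

lemma Dm.mono {β : ℝ} {μ : Measure (E n)} (h : Dm β μ) (A : Set (E n)) : Dm β (μ.restrict A) :=
  fun x r hr => (Measure.restrict_apply_le _ _).trans (h x r hr)

/-- radii in `(0, 1]`, finite measure -/
lemma piece_fin (hn : 2 ≤ n) {h : ℝ → ℝ} (hh : Bmp h) {β q θ : ℝ} (hβ0 : 0 ≤ β)
    (hβn : β < n) (hq : 2 ≤ q)
    (hθ1 : ((n : ℝ) - 1) / 2 - n / q < θ) (hθ2 : ((n : ℝ) - 1) / 4 - (n - β) / q < θ) :
    ∃ C : ℝ, 0 < C ∧ ∀ N : ℝ, 1 ≤ N → ∀ ρ : E n → ℝ, Measurable ρ →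
    (∀ x, 0 < ρ x) → (∀ x, ρ x ≤ 1) → ∀ (μ : Measure (E n)) [IsFiniteMeasure μ], Dm β μ →
    ∀ f : E n → ℂ, Integrable f → Measurable f →
    ∫⁻ x, ‖TV h N ρ f x‖ₑ ^ q ∂μ ≤ ENNReal.ofReal (C * N ^ (θ * q)) * ∫⁻ y, ‖f y‖ₑ ^ q := by
  obtain ⟨C, hC, H⟩ := piece hn hh hβ0 hβn.le hq hθ1 hθ2
  set w : ℝ := (1 / 2 : ℝ) ^ ((n : ℝ) - β) with hw
  have hw0 : 0 < w := by positivity
  have hw1 : w < 1 := Real.rpow_lt_one (by norm_num) (by norm_num) (by linarith)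
  have hw2 : 0 < 1 - w := by linarith
  refine ⟨C * (1 - w)⁻¹, by positivity, ?_⟩
  intro N hN ρ hρ hρ0 hρ1 μ _ hμ f hf hfm
  have hN0 : 0 < N := by linarith
  set R : ℕ → ℝ := fun k => (1 / 2) ^ k with hR
  have hR0 : ∀ k, 0 < R k := fun k => by positivity
  have hR1 : ∀ k, R k ≤ 1 := fun k => pow_le_one₀ (by norm_num) (by norm_num)
  set X : ℕ → Set (E n) := fun k => {x | R k / 2 < ρ x ∧ ρ x ≤ R k} with hX
  have hXm : ∀ k, MeasurableSet (X k) := fun k =>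
    (measurableSet_lt measurable_const hρ).inter (measurableSet_le hρ measurable_const)
  have hcov : (univ : Set (E n)) = ⋃ k, X k := by
    symm
    rw [eq_univ_iff_forall]
    intro x
    rw [mem_iUnion]
    obtain ⟨k, hk1, hk2⟩ := exists_nat_pow_near_of_lt_one (hρ0 x) (hρ1 x)
      (by norm_num : (0 : ℝ) < 1 / 2) (by norm_num)
    refine ⟨k, ?_, hk2⟩
    have : R k / 2 = (1 / 2) ^ (k + 1) := by rw [hR]; simp only; rw [pow_succ]; ring
    rw [this]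
    exact hk1
  classical
  have hk : ∀ k, ∫⁻ x in X k, ‖TV h N ρ f x‖ₑ ^ q ∂μ ≤
      ENNReal.ofReal (C * N ^ (θ * q) * w ^ k) * ∫⁻ y, ‖f y‖ₑ ^ q := by
    intro k
    set ρ' : E n → ℝ := (X k).piecewise ρ (fun _ => R k) with hρ'
    have hρ'm : Measurable ρ' := Measurable.piecewise (hXm k) hρ measurable_const
    have h1 : ∀ x, R k / 2 ≤ ρ' x := by
      intro x
      rw [hρ']
      by_cases hx : x ∈ X k
      · rw [piecewise_eq_of_mem _ _ _ hx]; exact hx.1.le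
      · rw [piecewise_eq_of_notMem _ _ _ hx]; linarith [hR0 k]
    have h2 : ∀ x, ρ' x ≤ R k := by
      intro x
      rw [hρ']
      by_cases hx : x ∈ X k
      · rw [piecewise_eq_of_mem _ _ _ hx]; exact hx.2
      · rw [piecewise_eq_of_notMem _ _ _ hx]
    have h3 := H N (R k) hN (hR0 k) (hR1 k) ρ' hρ'm h1 h2 μ hμ f hf hfm
    calc ∫⁻ x in X k, ‖TV h N ρ f x‖ₑ ^ q ∂μ = ∫⁻ x in X k, ‖TV h N ρ' f x‖ₑ ^ q ∂μ := by
          apply setLIntegral_congr_fun (hXm k)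
          intro x hx
          simp only
          unfold TV
          rw [hρ', piecewise_eq_of_mem _ _ _ hx]
      _ ≤ ∫⁻ x, ‖TV h N ρ' f x‖ₑ ^ q ∂μ := setLIntegral_le_lintegral _ _
      _ ≤ _ := h3
      _ = _ := by
          congr 2
          have : (R k) ^ ((n : ℝ) - β) = w ^ k := by
            rw [hR, hw]
            simp only
            rw [← Real.rpow_natCast, ← Real.rpow_natCast, ← Real.rpow_mul (by norm_num),
              ← Real.rpow_mul (by norm_num), mul_comm]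
          rw [this]; ring
  calc ∫⁻ x, ‖TV h N ρ f x‖ₑ ^ q ∂μ = ∫⁻ x in ⋃ k, X k, ‖TV h N ρ f x‖ₑ ^ q ∂μ := by
        rw [← hcov, setLIntegral_univ]
    _ ≤ ∑' k, ∫⁻ x in X k, ‖TV h N ρ f x‖ₑ ^ q ∂μ := lintegral_iUnion_le _ _
    _ ≤ ∑' k, ENNReal.ofReal (C * N ^ (θ * q) * w ^ k) * ∫⁻ y, ‖f y‖ₑ ^ q :=
        ENNReal.tsum_le_tsum hk
    _ = _ := by
        rw [ENNReal.tsum_mul_right]
        congr 1
        rw [← ENNReal.ofReal_tsum_of_nonneg (fun k => by positivity)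
          ((summable_geometric_of_lt_one hw0.le hw1).mul_left _), tsum_mul_left,
          tsum_geometric_of_lt_one hw0.le hw1]
        congr 1
        ring

/-- radii in `(0, 1]`, arbitrary measure -/
lemma piece_all (hn : 2 ≤ n) {h : ℝ → ℝ} (hh : Bmp h) {β q θ : ℝ} (hβ0 : 0 ≤ β)
    (hβn : β < n) (hq : 2 ≤ q)
    (hθ1 : ((n : ℝ) - 1) / 2 - n / q < θ) (hθ2 : ((n : ℝ) - 1) / 4 - (n - β) / q < θ) :
    ∃ C : ℝ, 0 < C ∧ ∀ N : ℝ, 1 ≤ N → ∀ ρ : E n → ℝ, Measurable ρ →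
    (∀ x, 0 < ρ x) → (∀ x, ρ x ≤ 1) → ∀ (μ : Measure (E n)), Dm β μ →
    ∀ f : E n → ℂ, Integrable f → Measurable f →
    ∫⁻ x, ‖TV h N ρ f x‖ₑ ^ q ∂μ ≤ ENNReal.ofReal (C * N ^ (θ * q)) * ∫⁻ y, ‖f y‖ₑ ^ q := by
  obtain ⟨C, hC, H⟩ := piece_fin hn hh hβ0 hβn hq hθ1 hθ2
  refine ⟨C, hC, fun N hN ρ hρ hρ0 hρ1 μ hμ f hf hfm => ?_⟩
  have hcov : (univ : Set (E n)) = ⋃ k : ℕ, closedBall (0 : E n) k := by
    rw [iUnion_closedBall_nat]
  rw [← setLIntegral_univ, hcov, setLIntegral_iUnion_of_directed]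
  · apply iSup_le
    intro k
    have hfin : IsFiniteMeasure (μ.restrict (closedBall (0 : E n) k)) := by
      constructor
      rw [Measure.restrict_apply_univ]
      have h1 : closedBall (0 : E n) k ⊆ closedBall (0 : E n) (max k 1) :=
        closedBall_subset_closedBall (le_max_left _ _)
      refine (measure_mono h1).trans_lt ((hμ 0 _ (le_max_right _ _)).trans_lt ?_)
      exact ENNReal.ofReal_lt_top
    exact H N hN ρ hρ hρ0 hρ1 _ (hμ.mono _) f hf hfm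
  · apply Monotone.directed_le
    intro k l hkl
    exact closedBall_subset_closedBall (by exact_mod_cast hkl)

/-- the Bochner-Riesz multiplier -/
noncomputable def mult (δ R : ℝ) (ξ : E n) : ℝ :=
  if ‖ξ‖ < R then (1 - ‖ξ‖ ^ 2 / R ^ 2) ^ δ else 0

/-- the Bochner-Riesz operator -/
noncomputable def S (δ R : ℝ) (f : E n → ℂ) (x : E n) : ℂ :=
  𝓕⁻ (fun ξ : E n => ((mult δ R ξ : ℝ) : ℂ) * 𝓕 f ξ) x

/-- partial sums of the multiplier -/
noncomputable def MK (δ : ℝ) (K : ℕ) (R : ℝ) (ξ : E n) : ℝ :=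
  ∑ k ∈ Finset.range K, (2 : ℝ) ^ (-(k : ℝ) * δ) * psi δ (2 ^ k * (1 - ‖ξ‖ ^ 2 / R ^ 2))

lemma psum {δ t : ℝ} (ht : 0 < t) (ht1 : t ≤ 1) (K : ℕ) :
    ∑ k ∈ Finset.range K, (2 : ℝ) ^ (-(k : ℝ) * δ) * psi δ (2 ^ k * t) =
      t ^ δ * (1 - chi (2 ^ K * t)) := by
  induction K with
  | zero => rw [Finset.sum_range_zero, pow_zero, one_mul, chi_one ht1]; ring
  | succ K ih =>
    rw [Finset.sum_range_succ, ih]
    unfold Pool.Agent.W773.BRA.psi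
    have h1 : (2 : ℝ) ^ (-(K : ℝ) * δ) * (2 ^ K * t) ^ δ = t ^ δ := by
      rw [Real.mul_rpow (by positivity) ht.le, ← Real.rpow_natCast 2 K, ← Real.rpow_mul
        (by norm_num), ← mul_assoc, ← Real.rpow_add (by norm_num)]
      have : -(K : ℝ) * δ + K * δ = 0 := by ring
      rw [this, Real.rpow_zero, one_mul]
    rw [← mul_assoc, h1, pow_succ]
    have : 2 * (2 ^ K * t) = 2 ^ K * 2 * t := by ring
    rw [this]
    ring

lemma MK_zero {δ R : ℝ} {K : ℕ} {ξ : E n} (h : 1 - ‖ξ‖ ^ 2 / R ^ 2 ≤ 0) : MK δ K R ξ = 0 := by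
  unfold MK
  apply Finset.sum_eq_zero
  intro k _
  rw [psi_eq_zero_left, mul_zero]
  have : (2 : ℝ) ^ k * (1 - ‖ξ‖ ^ 2 / R ^ 2) ≤ 0 :=
    mul_nonpos_of_nonneg_of_nonpos (by positivity) h
  linarith

lemma MK_abs {δ : ℝ} (hδ : 0 ≤ δ) (K : ℕ) (R : ℝ) (ξ : E n) : |MK δ K R ξ| ≤ 1 := by
  rcases le_or_gt (1 - ‖ξ‖ ^ 2 / R ^ 2) 0 with h | h
  · rw [MK_zero h, abs_zero]; norm_num
  · have h1 : 1 - ‖ξ‖ ^ 2 / R ^ 2 ≤ 1 := by
      have : 0 ≤ ‖ξ‖ ^ 2 / R ^ 2 := by positivity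
      linarith
    unfold MK
    rw [psum h h1]
    have h2 : 0 ≤ (1 - ‖ξ‖ ^ 2 / R ^ 2) ^ δ := Real.rpow_nonneg h.le _
    have h3 : (1 - ‖ξ‖ ^ 2 / R ^ 2) ^ δ ≤ 1 := Real.rpow_le_one h.le h1 hδ
    have h4 := chi_nonneg (2 ^ K * (1 - ‖ξ‖ ^ 2 / R ^ 2))
    have h5 := chi_le_one (2 ^ K * (1 - ‖ξ‖ ^ 2 / R ^ 2))
    rw [abs_of_nonneg (mul_nonneg h2 (by linarith))]
    nlinarith

lemma MK_cont (δ : ℝ) (K : ℕ) (R : ℝ) : Continuous (fun ξ : E n => MK δ K R ξ) := by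
  unfold MK
  apply continuous_finsetSum
  intro k _
  exact continuous_const.mul ((psi_contDiff δ).continuous.comp (by fun_prop))

lemma MK_tend {δ R : ℝ} (hR : 0 < R) (ξ : E n) :
    Tendsto (fun K : ℕ => MK δ K R ξ) atTop (𝓝 (mult δ R ξ)) := by
  unfold mult
  by_cases h : ‖ξ‖ < R
  · rw [if_pos h]
    have h0 : ‖ξ‖ ^ 2 / R ^ 2 < 1 := by
      rw [div_lt_one (by positivity)]
      have := norm_nonneg ξ
      gcongr
    have ht : 0 < 1 - ‖ξ‖ ^ 2 / R ^ 2 := by linarith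
    have h1 : 1 - ‖ξ‖ ^ 2 / R ^ 2 ≤ 1 := by
      have : 0 ≤ ‖ξ‖ ^ 2 / R ^ 2 := by positivity
      linarith
    apply tendsto_const_nhds.congr'
    obtain ⟨m, hm⟩ := pow_unbounded_of_one_lt (2 / (1 - ‖ξ‖ ^ 2 / R ^ 2)) (by norm_num : (1:ℝ) < 2)
    filter_upwards [eventually_ge_atTop m] with K hK
    unfold MK
    rw [psum ht h1, chi_zero, sub_zero, mul_one]
    have h2 : (2 : ℝ) ^ m ≤ 2 ^ K := pow_le_pow_right₀ (by norm_num) hK
    rw [div_lt_iff₀ ht] at hm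
    nlinarith
  · rw [if_neg h]
    rw [not_lt] at h
    have h0 : 1 - ‖ξ‖ ^ 2 / R ^ 2 ≤ 0 := by
      have : 1 ≤ ‖ξ‖ ^ 2 / R ^ 2 := by
        rw [one_le_div (by positivity)]
        gcongr
      linarith
    apply tendsto_const_nhds.congr'
    filter_upwards with K
    rw [MK_zero h0]

/-- partial sums of the operator -/
noncomputable def SK (δ : ℝ) (K : ℕ) (ρ : E n → ℝ) (f : E n → ℂ) (x : E n) : ℂ :=
  ∑ k ∈ Finset.range K, (((2 : ℝ) ^ (-(k : ℝ) * δ) : ℝ) : ℂ) * TV (psi δ) (2 ^ k) ρ f x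

lemma SK_eq {δ : ℝ} (K : ℕ) {ρ : E n → ℝ} (hρ0 : ∀ x, 0 < ρ x) {f : E n → ℂ}
    (hf : Integrable f) (x : E n) :
    SK δ K ρ f x = ∫ ξ : E n, (Real.fourierChar ⟪ξ, x⟫ : ℂ) * (((MK δ K (ρ x) ξ : ℝ) : ℂ) * 𝓕 f ξ) := by
  unfold SK TV Pool.Agent.W773.BRA.T
  have hTint : ∀ k : ℕ, Integrable (fun ξ : E n => prof (psi δ) (2 ^ k) (ρ x) ξ * 𝓕 f ξ) :=
    fun k => prodF_int (psi_bmp δ) (by positivity) (hρ0 x) hf
  have hb : ∀ k : ℕ, Integrable (fun ξ : E n => (((2 : ℝ) ^ (-(k : ℝ) * δ) : ℝ) : ℂ) *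
      ((Real.fourierChar ⟪ξ, x⟫ : ℂ) * (prof (psi δ) (2 ^ k) (ρ x) ξ * 𝓕 f ξ))) := by
    intro k
    apply Integrable.const_mul
    apply (hTint k).bdd_mul (c := 1)
    · exact (Pool.Agent.W773.BRA.ch_cont x).aestronglyMeasurable
    · exact Eventually.of_forall fun ξ => Pool.Agent.W773.BRA.ch_norm _
  have h2 : ∀ k : ℕ, (((2 : ℝ) ^ (-(k : ℝ) * δ) : ℝ) : ℂ) *
      𝓕⁻ (fun ξ : E n => prof (psi δ) (2 ^ k) (ρ x) ξ * 𝓕 f ξ) x =
      ∫ ξ : E n, (((2 : ℝ) ^ (-(k : ℝ) * δ) : ℝ) : ℂ) *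
      ((Real.fourierChar ⟪ξ, x⟫ : ℂ) * (prof (psi δ) (2 ^ k) (ρ x) ξ * 𝓕 f ξ)) := by
    intro k
    rw [integral_const_mul, Real.fourierInv_eq]
    rfl
  simp_rw [h2]
  rw [← integral_finsetSum _ fun k _ => hb k]
  apply integral_congr_ae
  filter_upwards with ξ
  unfold Pool.Agent.W773.BRA.prof MK
  rw [Complex.ofReal_sum, Finset.sum_mul, Finset.mul_sum]
  apply Finset.sum_congr rfl
  intro k _
  push_cast
  ring

lemma SK_tend {δ : ℝ} (hδ : 0 ≤ δ) {ρ : E n → ℝ} (hρ0 : ∀ x, 0 < ρ x) (f : 𝓢(E n, ℂ)) (x : E n) :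
    Tendsto (fun K : ℕ => SK δ K ρ f x) atTop (𝓝 (S δ (ρ x) f x)) := by
  have hF : Integrable (𝓕 (f : E n → ℂ)) := by
    have := (𝓕 f).integrable (μ := (volume : Measure (E n)))
    rwa [SchwartzMap.fourier_coe] at this
  have e2 : S δ (ρ x) f x = ∫ ξ : E n, (Real.fourierChar ⟪ξ, x⟫ : ℂ) *
      (((mult δ (ρ x) ξ : ℝ) : ℂ) * 𝓕 (f : E n → ℂ) ξ) := by
    unfold S
    rw [Real.fourierInv_eq]
    rfl
  rw [e2]
  simp_rw [SK_eq _ hρ0 f.integrable]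
  apply tendsto_integral_of_dominated_convergence (fun ξ => ‖𝓕 (f : E n → ℂ) ξ‖)
  · intro K
    apply Continuous.aestronglyMeasurable
    have h1 : Continuous (𝓕 (f : E n → ℂ)) := Pool.Agent.W773.BRA.cont_F f.integrable
    exact (Pool.Agent.W773.BRA.ch_cont x).mul
      ((Complex.continuous_ofReal.comp (MK_cont δ K (ρ x))).mul h1)
  · exact hF.norm
  · intro K
    filter_upwards with ξ
    rw [norm_mul, norm_mul, Circle.norm_coe, one_mul, Complex.norm_real, Real.norm_eq_abs]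
    have := MK_abs hδ K (ρ x) ξ
    have h0 := norm_nonneg (𝓕 (f : E n → ℂ) ξ)
    nlinarith
  · filter_upwards with ξ
    apply Tendsto.const_mul
    apply Tendsto.mul_const
    exact (Complex.continuous_ofReal.tendsto _).comp (MK_tend (hρ0 x) ξ)

theorem main (hn : 2 ≤ n) {β q δ : ℝ} (hβ0 : 0 ≤ β) (hβn : β < n) (hq : 2 ≤ q) (hδ : 0 ≤ δ)
    (h1 : ((n : ℝ) - 1) / 2 - n / q < δ) (h2 : ((n : ℝ) - 1) / 4 - (n - β) / q < δ) :
    ∃ C : ℝ, 0 < C ∧ ∀ μ : Measure (E n), Dm β μ → ∀ ρ : E n → ℝ, Measurable ρ →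
    (∀ x, 0 < ρ x) → (∀ x, ρ x ≤ 1) → ∀ f : 𝓢(E n, ℂ),
      eLpNorm (fun x => S δ (ρ x) f x) (ENNReal.ofReal q) μ ≤
        ENNReal.ofReal C * eLpNorm (f : E n → ℂ) (ENNReal.ofReal q) volume := by
  set m : ℝ := max (((n : ℝ) - 1) / 2 - n / q) (((n : ℝ) - 1) / 4 - (n - β) / q) with hm
  have hmδ : m < δ := max_lt h1 h2
  set θ : ℝ := (m + δ) / 2 with hθ
  have hθ1 : ((n : ℝ) - 1) / 2 - n / q < θ := by
    have := le_max_left (((n : ℝ) - 1) / 2 - n / q) (((n : ℝ) - 1) / 4 - (n - β) / q)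
    rw [hθ]; linarith
  have hθ2 : ((n : ℝ) - 1) / 4 - (n - β) / q < θ := by
    have := le_max_right (((n : ℝ) - 1) / 2 - n / q) (((n : ℝ) - 1) / 4 - (n - β) / q)
    rw [hθ]; linarith
  have hθδ : θ < δ := by rw [hθ]; linarith
  have hq0 : 0 < q := by linarith
  obtain ⟨A, hA, hpc⟩ := piece_all (n := n) hn (psi_bmp δ) hβ0 hβn hq hθ1 hθ2
  set w : ℝ := (2 : ℝ) ^ (θ - δ) with hw
  have hw0 : 0 < w := by positivity
  have hw1 : w < 1 := Real.rpow_lt_one_of_one_lt_of_neg (by norm_num) (by linarith)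
  have hw2 : 0 < 1 - w := by linarith
  refine ⟨A ^ (1 / q) * (1 - w)⁻¹, by positivity, fun μ hμ ρ hρ hρ0 hρ1 f => ?_⟩
  have hpne : ENNReal.ofReal q ≠ 0 := by simpa using hq0
  have hptop : ENNReal.ofReal q ≠ ⊤ := ENNReal.ofReal_ne_top
  have hpr : (ENNReal.ofReal q).toReal = q := ENNReal.toReal_ofReal hq0.le
  have hfm : Measurable (f : E n → ℂ) := f.continuous.measurable
  have hTk : ∀ k : ℕ, eLpNorm (TV (psi δ) (2 ^ k) ρ f) (ENNReal.ofReal q) μ ≤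
      ENNReal.ofReal ((A * ((2 : ℝ) ^ k) ^ (θ * q)) ^ (1 / q)) *
        eLpNorm (f : E n → ℂ) (ENNReal.ofReal q) volume := by
    intro k
    rw [eLpNorm_eq_lintegral_rpow_enorm_toReal hpne hptop,
      eLpNorm_eq_lintegral_rpow_enorm_toReal hpne hptop, hpr]
    have h1 := hpc (2 ^ k) (one_le_pow₀ (by norm_num)) ρ hρ hρ0 hρ1 μ hμ f f.integrable hfm
    rw [← ENNReal.ofReal_rpow_of_nonneg (by positivity) (by positivity),
      ← ENNReal.mul_rpow_of_nonneg _ _ (by positivity)]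
    exact ENNReal.rpow_le_rpow h1 (by positivity)
  have hmeas : ∀ k : ℕ, AEStronglyMeasurable (TV (psi δ) (2 ^ k) ρ f) μ := fun k =>
    (TV_meas (psi_bmp δ) (by positivity) hρ hρ0 f.integrable hfm).aestronglyMeasurable
  have hmeas2 : ∀ k : ℕ, AEStronglyMeasurable (fun x : E n =>
      (((2 : ℝ) ^ (-(k : ℝ) * δ) : ℝ) : ℂ) * TV (psi δ) (2 ^ k) ρ f x) μ :=
    fun k => (hmeas k).const_mul _
  have e0 : ∀ K, SK δ K ρ f = ∑ k ∈ Finset.range K, fun x : E n =>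
      (((2 : ℝ) ^ (-(k : ℝ) * δ) : ℝ) : ℂ) * TV (psi δ) (2 ^ k) ρ f x := by
    intro K
    funext x
    simp [SK]
  have hSKm : ∀ K : ℕ, AEStronglyMeasurable (SK δ K ρ f) μ := by
    intro K
    rw [e0]
    exact Finset.aestronglyMeasurable_sum _ fun k _ => hmeas2 k
  have hSK : ∀ K : ℕ, eLpNorm (SK δ K ρ f) (ENNReal.ofReal q) μ ≤
      ENNReal.ofReal (A ^ (1 / q) * (1 - w)⁻¹) *
        eLpNorm (f : E n → ℂ) (ENNReal.ofReal q) volume := by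
    intro K
    have hp1 : 1 ≤ ENNReal.ofReal q := by
      rw [← ENNReal.ofReal_one]; exact ENNReal.ofReal_le_ofReal (by linarith)
    rw [e0]
    refine (eLpNorm_sum_le (fun k _ => hmeas2 k) hp1).trans ?_
    have h2 : ∀ k ∈ Finset.range K, eLpNorm (fun x : E n =>
        (((2 : ℝ) ^ (-(k : ℝ) * δ) : ℝ) : ℂ) * TV (psi δ) (2 ^ k) ρ f x) (ENNReal.ofReal q) μ ≤
        ENNReal.ofReal (A ^ (1 / q) * w ^ k) *
          eLpNorm (f : E n → ℂ) (ENNReal.ofReal q) volume := by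
      intro k _
      have h3 : eLpNorm (fun x : E n =>
          (((2 : ℝ) ^ (-(k : ℝ) * δ) : ℝ) : ℂ) * TV (psi δ) (2 ^ k) ρ f x) (ENNReal.ofReal q) μ =
          ENNReal.ofReal ((2 : ℝ) ^ (-(k : ℝ) * δ)) *
            eLpNorm (TV (psi δ) (2 ^ k) ρ f) (ENNReal.ofReal q) μ := by
        have := eLpNorm_const_smul (((2 : ℝ) ^ (-(k : ℝ) * δ) : ℝ) : ℂ)
          (TV (psi δ) (2 ^ k) ρ f) (ENNReal.ofReal q) μ
        rw [← ofReal_norm, Complex.norm_real, Real.norm_eq_abs, abs_of_pos (by positivity)] at this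
        exact this
      rw [h3]
      refine (mul_le_mul_right (hTk k) _).trans ?_
      rw [← mul_assoc, ← ENNReal.ofReal_mul (by positivity)]
      apply le_of_eq
      congr 2
      rw [Real.mul_rpow hA.le (by positivity), ← Real.rpow_natCast (2 : ℝ) k, ← Real.rpow_mul
        (by norm_num), ← Real.rpow_mul (by norm_num), hw, ← Real.rpow_natCast, ← Real.rpow_mul
        (by norm_num), ← mul_assoc, mul_comm ((2 : ℝ) ^ (-(k : ℝ) * δ)), mul_assoc,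
        ← Real.rpow_add (by norm_num)]
      congr 2
      field_simp
      ring
    refine (Finset.sum_le_sum h2).trans ?_
    rw [← Finset.sum_mul]
    gcongr
    rw [← ENNReal.ofReal_sum_of_nonneg (fun k _ => by positivity)]
    apply ENNReal.ofReal_le_ofReal
    rw [← Finset.mul_sum]
    gcongr
    exact (Summable.sum_le_tsum _ (fun k _ => by positivity)
      (summable_geometric_of_lt_one hw0.le hw1)).trans (le_of_eq (tsum_geometric_of_lt_one hw0.le hw1))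
  have hlim : ∀ᵐ x ∂μ, Tendsto (fun K : ℕ => SK δ K ρ f x) atTop (𝓝 (S δ (ρ x) f x)) :=
    Eventually.of_forall fun x => SK_tend hδ hρ0 f x
  refine (Lp.eLpNorm_lim_le_liminf_eLpNorm hSKm _ hlim).trans ?_
  refine liminf_le_of_frequently_le' ?_
  exact Eventually.frequently (Eventually.of_forall hSK)

end Pool.Agent.W774.TB
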