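import Pool.Agent.W774.TB.Yg
set_option autoImplicit false

/-! Rapid decay of the kernels and the Schur test. -/

namespace Pool.Agent.W774.TB

open Set Filter MeasureTheory Metric
open scoped Topology ContDiff FourierTransform ENNReal RealInnerProductSpace ComplexConjugate
open Pool.Agent.W773.BRA (prof Bmp prof_contDiff prof_compact prof_norm_le)

variable {n : ℕ}

lemma kern_pt (hn : 2 ≤ n) {h : ℝ → ℝ} (hh : Bmp h) (a : ℕ) : ∃ C : ℝ, 0 < C ∧
    ∀ N R ρ : ℝ, 1 ≤ N → 0 < R → R / 2 ≤ ρ → ρ ≤ R → ∀ z : E n,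
    ‖𝓕 (prof h N ρ : E n → ℂ) z‖ ≤ C * (R ^ n / N) * (1 + (R / N) * ‖z‖) ^ (-(2 * a : ℝ)) := by
  obtain ⟨Cv, hCv, hvol⟩ := Pool.Agent.W773.BRA.ann_vol (n := n) hn
  obtain ⟨M, hM, hb⟩ := (Pool.Agent.W773.BRA.HH_JB (n := n) hh a).bound
  refine ⟨M * Cv * 8 ^ a, by positivity, fun N R ρ hN hR hρ1 hρ2 z => ?_⟩
  have hN0 : 0 < N := by linarith
  have hρ0 : 0 < ρ := by linarith
  set G := Pool.Agent.W773.BRA.Sp (n := n)
    ((Pool.Agent.W773.BRA.HH_JB (n := n) hh a).slice (1 / N)) hN0 hρ0 with hG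
  have h1 := Pool.Agent.W773.BRA.fourier_HH (n := n) hh hN0 hρ0 a z
  rw [← hG] at h1
  have hGb : ‖𝓕 G z‖ ≤ M * (Cv * (R ^ n / N)) := by
    have e1 : ‖𝓕 G z‖ ≤ ∫ ξ : E n, ‖G ξ‖ := by
      rw [SchwartzMap.fourier_coe]
      exact VectorFourier.norm_fourierIntegral_le_integral_norm _ _ _ _ _
    refine e1.trans ?_
    set A : Set (E n) :=
      {ξ : E n | 1 / 2 ≤ N * (1 - ‖ξ‖ ^ 2 / ρ ^ 2) ∧ N * (1 - ‖ξ‖ ^ 2 / ρ ^ 2) ≤ 2} with hA
    have hAm : MeasurableSet A := by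
      have hu : Measurable (fun ξ : E n => N * (1 - ‖ξ‖ ^ 2 / ρ ^ 2)) := by fun_prop
      exact (measurableSet_le measurable_const hu).inter (measurableSet_le hu measurable_const)
    have hAv := hvol N ρ hN hρ0
    rw [← hA] at hAv
    have hAfin : volume A ≠ ⊤ := (hAv.trans_lt ENNReal.ofReal_lt_top).ne
    have e2 : ∀ ξ : E n, ‖G ξ‖ ≤ A.indicator (fun _ => M) ξ := by
      intro ξ
      have e3 : G ξ = prof (fun u => Pool.Agent.W773.BRA.HH n h a (1 / N, u)) N ρ ξ :=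
        Pool.Agent.W773.BRA.Sp_apply _ _ _ _
      by_cases hξ : ξ ∈ A
      · rw [indicator_of_mem hξ, e3]
        unfold Pool.Agent.W773.BRA.prof
        rw [Complex.norm_real, Real.norm_eq_abs]
        exact hb _ ⟨by positivity, by rw [div_le_one hN0]; exact hN⟩ _
      · rw [indicator_of_notMem hξ, e3]
        have : prof (fun u => Pool.Agent.W773.BRA.HH n h a (1 / N, u)) N ρ ξ = 0 := by
          by_contra hne
          exact hξ (Pool.Agent.W773.BRA.prof_ne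
            ((Pool.Agent.W773.BRA.HH_JB (n := n) hh a).slice (1 / N)) hne)
        rw [this]; simp
    have e4 : Integrable (A.indicator (fun _ => M)) :=
      (integrable_indicator_iff hAm).2 (integrableOn_const hAfin)
    refine (integral_mono_of_nonneg (Eventually.of_forall fun ξ => norm_nonneg _) e4
      (Eventually.of_forall e2)).trans ?_
    rw [integral_indicator hAm, setIntegral_const, smul_eq_mul, mul_comm]
    gcongr
    rw [measureReal_def]
    refine ENNReal.toReal_le_of_le_ofReal (by positivity) (hAv.trans ?_)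
    apply ENNReal.ofReal_le_ofReal
    gcongr
  have hz := norm_nonneg z
  have e5 : ‖𝓕 (prof h N ρ : E n → ℂ) z‖ =
      ((1 + ρ ^ 2 / N ^ 2 * ‖z‖ ^ 2)⁻¹) ^ a * ‖𝓕 G z‖ := by
    have e6 : 𝓕 (prof h N ρ : E n → ℂ) z = 𝓕 (Pool.Agent.W773.BRA.Sp (n := n) hh hN0 hρ0) z := by
      rw [SchwartzMap.fourier_coe]
      rfl
    have e7 : (0 : ℝ) < 1 + ρ ^ 2 / N ^ 2 * ‖z‖ ^ 2 := by positivity
    rw [e6, h1, norm_mul, norm_pow, Complex.norm_real, Real.norm_eq_abs, abs_of_pos e7,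
      ← mul_assoc, ← mul_pow, inv_mul_cancel₀ e7.ne', one_pow, one_mul]
  rw [e5]
  have e8 : ((1 + ρ ^ 2 / N ^ 2 * ‖z‖ ^ 2)⁻¹) ^ a ≤
      8 ^ a * (1 + (R / N) * ‖z‖) ^ (-(2 * a : ℝ)) := by
    have e9 : (0 : ℝ) < 1 + (R / N) * ‖z‖ := by positivity
    have e10 : (1 + (R / N) * ‖z‖) ^ (-(2 * a : ℝ)) = (((1 + (R / N) * ‖z‖) ^ 2)⁻¹) ^ a := by
      rw [Real.rpow_neg e9.le, inv_pow, ← pow_mul]
      congr 1
      rw [← Real.rpow_natCast]
      push_cast
      rfl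
    rw [e10, ← mul_pow]
    apply pow_le_pow_left₀ (by positivity)
    rw [inv_le_iff_one_le_mul₀ (by positivity), mul_comm, ← mul_assoc,
      ← div_eq_mul_inv, le_div_iff₀ (by positivity), one_mul]
    have e11 : (R / N * ‖z‖) ^ 2 ≤ 4 * (ρ ^ 2 / N ^ 2 * ‖z‖ ^ 2) := by
      have : R / N * ‖z‖ ≤ 2 * (ρ / N * ‖z‖) := by
        have : R / N ≤ 2 * (ρ / N) := by
          rw [← mul_div_assoc]; gcongr; linarith
        nlinarith
      calc (R / N * ‖z‖) ^ 2 ≤ (2 * (ρ / N * ‖z‖)) ^ 2 := by gcongr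
        _ = _ := by ring
    nlinarith [sq_nonneg (1 - R / N * ‖z‖)]
  calc ((1 + ρ ^ 2 / N ^ 2 * ‖z‖ ^ 2)⁻¹) ^ a * ‖𝓕 G z‖
      ≤ (8 ^ a * (1 + (R / N) * ‖z‖) ^ (-(2 * a : ℝ))) * (M * (Cv * (R ^ n / N))) := by
        gcongr
    _ = _ := by ring

/-- integrals of power weights against measures of given dimension -/
lemma dm_int {γ D : ℝ} (hD : 0 < D) (hDγ : γ < D) : ∃ C : ℝ, 0 < C ∧
    ∀ (ν : Measure (E n)) (A t : ℝ), 0 ≤ A → 0 < t → ∀ y : E n,
    (∀ r : ℝ, 1 / t ≤ r → ν (closedBall y r) ≤ ENNReal.ofReal (A * r ^ γ)) →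
    ∫⁻ x, ENNReal.ofReal ((1 + t * ‖y - x‖) ^ (-D)) ∂ν ≤ ENNReal.ofReal (C * A * t ^ (-γ)) := by
  classical
  set w : ℝ := (2 : ℝ) ^ (γ - D) with hw
  have hw0 : 0 < w := by positivity
  have hw1 : w < 1 := Real.rpow_lt_one_of_one_lt_of_neg (by norm_num) (by linarith)
  refine ⟨2 ^ D * (1 - w)⁻¹, by
    have : 0 < 1 - w := by linarith
    positivity, fun ν A t hA ht y hν => ?_⟩
  have h1 : ∀ x : E n, ENNReal.ofReal ((1 + t * ‖y - x‖) ^ (-D)) ≤
      ∑' i : ℕ, ENNReal.ofReal (2 ^ D * (2 ^ i : ℝ) ^ (-D)) *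
        (closedBall y (2 ^ i / t)).indicator (fun _ => (1 : ℝ≥0∞)) x := by
    intro x
    have h2 : 0 ≤ t * ‖y - x‖ := by positivity
    obtain ⟨m, hm⟩ := pow_unbounded_of_one_lt (t * ‖y - x‖) (by norm_num : (1 : ℝ) < 2)
    refine (dyad hD h2 hm.le).trans ?_
    refine le_trans ?_ (ENNReal.sum_le_tsum (Finset.range (m + 1)))
    apply Finset.sum_le_sum
    intro i _
    gcongr
    by_cases h3 : t * ‖y - x‖ ≤ 2 ^ i
    · rw [if_pos h3, indicator_of_mem]
      rw [mem_closedBall, dist_comm, dist_eq_norm, le_div_iff₀ ht]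
      linarith
    · rw [if_neg h3]; exact zero_le
  refine (lintegral_mono h1).trans ?_
  rw [lintegral_tsum fun i => ((measurable_const.indicator measurableSet_closedBall).const_mul
    _).aemeasurable]
  have h4 : ∀ i : ℕ, ∫⁻ x, ENNReal.ofReal (2 ^ D * (2 ^ i : ℝ) ^ (-D)) *
      (closedBall y (2 ^ i / t)).indicator (fun _ => (1 : ℝ≥0∞)) x ∂ν ≤
      ENNReal.ofReal (2 ^ D * A * t ^ (-γ) * w ^ i) := by
    intro i
    rw [lintegral_const_mul _ (measurable_const.indicator measurableSet_closedBall),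
      lintegral_indicator measurableSet_closedBall, setLIntegral_const, one_mul]
    have h5 := hν (2 ^ i / t) (by gcongr; exact one_le_pow₀ (by norm_num))
    refine (mul_le_mul_right h5 _).trans ?_
    rw [← ENNReal.ofReal_mul (by positivity)]
    apply le_of_eq
    congr 1
    rw [Real.div_rpow (by positivity) ht.le, Real.rpow_neg ht.le, hw, ← Real.rpow_natCast,
      ← Real.rpow_natCast, ← Real.rpow_mul (by norm_num), ← Real.rpow_mul (by norm_num),
      ← Real.rpow_mul (by norm_num)]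
    have h6 : (2 : ℝ) ^ ((γ - D) * (i : ℝ)) = 2 ^ ((i : ℝ) * -D) * 2 ^ ((i : ℝ) * γ) := by
      rw [← Real.rpow_add (by norm_num)]
      congr 1; ring
    rw [h6]
    field_simp
  refine (ENNReal.tsum_le_tsum h4).trans ?_
  have hsum : Summable (fun i : ℕ => 2 ^ D * A * t ^ (-γ) * w ^ i) :=
    (summable_geometric_of_lt_one hw0.le hw1).mul_left _
  rw [← ENNReal.ofReal_tsum_of_nonneg (fun i => by positivity) hsum, tsum_mul_left,
    tsum_geometric_of_lt_one hw0.le hw1]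
  apply le_of_eq
  congr 1
  ring

/-- the Schur test -/
lemma schur {α γ : Type*} [MeasurableSpace α] [MeasurableSpace γ] {μ : Measure α} {ν : Measure γ}
    [SFinite μ] [SFinite ν] {W : α → γ → ℝ≥0∞} (hW : Measurable (fun p : α × γ => W p.1 p.2))
    {a b : ℝ≥0∞} (ha : ∀ x, ∫⁻ y, W x y ∂ν ≤ a) (hb : ∀ y, ∫⁻ x, W x y ∂μ ≤ b)
    {G : α → ℝ≥0∞} (hG : Measurable G) {s q : ℝ} (hs : 1 < s) (hsq : 1 / s + 1 / q = 1) :
    ∫⁻ y, (∫⁻ x, W x y * G x ∂μ) ^ s ∂ν ≤ b ^ (s / q) * a * ∫⁻ x, G x ^ s ∂μ := by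
  have hs0 : 0 < s := by linarith
  have hq0 : 0 < q := by
    have h1 : 1 / s < 1 := by rw [div_lt_one hs0]; exact hs
    have h2 : 0 < 1 / q := by linarith
    exact one_div_pos.1 h2
  have hconj : q.HolderConjugate s := by
    rw [Real.holderConjugate_iff]
    refine ⟨?_, by rw [← one_div, ← one_div]; linarith⟩
    have h1 : 0 < 1 / s := by positivity
    have h2 : 1 / q < 1 := by linarith
    rwa [div_lt_one hq0] at h2
  have hWy : ∀ y, Measurable (fun x => W x y) := fun y => hW.comp measurable_prodMk_right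
  have hWx : ∀ x, Measurable (fun y => W x y) := fun x => hW.comp measurable_prodMk_left
  have h1 : ∀ y, (∫⁻ x, W x y * G x ∂μ) ^ s ≤ b ^ (s / q) * ∫⁻ x, W x y * G x ^ s ∂μ := by
    intro y
    have h2 : ∫⁻ x, W x y * G x ∂μ =
        ∫⁻ x, (fun x => W x y ^ (1 / q)) x * (fun x => W x y ^ (1 / s) * G x) x ∂μ := by
      apply lintegral_congr
      intro x
      simp only
      rw [← mul_assoc, ← ENNReal.rpow_add_of_nonneg _ _ (by positivity) (by positivity),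
        show 1 / q + 1 / s = 1 by linarith, ENNReal.rpow_one]
    have h3 := ENNReal.lintegral_mul_le_Lp_mul_Lq μ hconj
      (f := fun x => W x y ^ (1 / q)) (g := fun x => W x y ^ (1 / s) * G x)
      ((hWy y).pow_const _).aemeasurable (((hWy y).pow_const _).mul hG).aemeasurable
    rw [h2]
    refine (ENNReal.rpow_le_rpow h3 hs0.le).trans ?_
    rw [ENNReal.mul_rpow_of_nonneg _ _ hs0.le, ← ENNReal.rpow_mul, ← ENNReal.rpow_mul]
    have h4 : ∀ x, (W x y ^ (1 / q)) ^ q = W x y := by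
      intro x
      rw [← ENNReal.rpow_mul, one_div_mul_cancel hq0.ne', ENNReal.rpow_one]
    have h5 : ∀ x, (W x y ^ (1 / s) * G x) ^ s = W x y * G x ^ s := by
      intro x
      rw [ENNReal.mul_rpow_of_nonneg _ _ hs0.le, ← ENNReal.rpow_mul, one_div_mul_cancel hs0.ne',
        ENNReal.rpow_one]
    simp_rw [h4, h5]
    rw [one_div_mul_cancel hs0.ne', ENNReal.rpow_one, one_div_mul_eq_div]
    gcongr
    exact hb y
  refine (lintegral_mono h1).trans ?_
  have hm : Measurable (fun p : α × γ => W p.1 p.2 * G p.1 ^ s) :=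
    hW.mul ((hG.comp measurable_fst).pow_const s)
  have hm2 : Measurable (fun y => ∫⁻ x, W x y * G x ^ s ∂μ) := hm.lintegral_prod_left'
  rw [lintegral_const_mul _ hm2, mul_assoc]
  gcongr
  have h6 : ∫⁻ y, ∫⁻ x, W x y * G x ^ s ∂μ ∂ν = ∫⁻ x, ∫⁻ y, W x y * G x ^ s ∂ν ∂μ :=
    (lintegral_lintegral_swap (f := fun x y => W x y * G x ^ s) hm.aemeasurable).symm
  rw [h6, ← lintegral_const_mul _ (hG.pow_const s)]
  apply lintegral_mono
  intro x
  simp only
  rw [lintegral_mul_const _ (hWx x)]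
  gcongr
  exact ha x

end Pool.Agent.W774.TB
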