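import Pool.Agent.W774.TB.L2
set_option autoImplicit false

/-! Young's inequality on a measure of given dimension. -/

namespace Pool.Agent.W774.TB

open Set Filter MeasureTheory Metric
open scoped Topology ContDiff FourierTransform ENNReal RealInnerProductSpace ComplexConjugate
open Pool.Agent.W773.BRA (prof Bmp prof_contDiff prof_compact prof_norm_le)

variable {n : ℕ}

lemma young {α : Type*} [MeasurableSpace α] {μ : Measure α} [SFinite μ] {G : α → ℝ≥0∞}
    (hG : Measurable G) {K : Set (α × α)} (hK : MeasurableSet K)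
    (hsymm : ∀ x y, (x, y) ∈ K → (y, x) ∈ K) {A : ℝ≥0∞} (hA : ∀ x, μ {y | (x, y) ∈ K} ≤ A)
    {s q : ℝ} (hs : 1 < s) (hsq : 1 / s + 1 / q = 1) (hs2 : s ≤ 2) :
    ∫⁻ x, ∫⁻ y, K.indicator (fun p : α × α => G p.1 * G p.2) (x, y) ∂μ ∂μ ≤
      A ^ (2 / q) * (∫⁻ x, G x ^ s ∂μ) ^ (2 / s) := by
  have hs0 : 0 < s := by linarith
  have hq0 : 0 < q := by
    have h1 : 1 / s < 1 := by rw [div_lt_one hs0]; exact hs
    have h2 : 0 < 1 / q := by linarith
    exact one_div_pos.1 h2
  have hq2 : 2 / q ≤ 1 := by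
    have h1 : 1 / 2 ≤ 1 / s := one_div_le_one_div_of_le hs0 hs2
    have : 2 / q = 2 * (1 / q) := by ring
    rw [this]; linarith
  set I : ℝ≥0∞ := ∫⁻ x, G x ^ s ∂μ with hI
  have hGs : Measurable (fun x => G x ^ s) := hG.pow_const s
  set f0 : α × α → ℝ≥0∞ := fun p => G p.1 ^ s * G p.2 ^ s with hf0
  set f1 : α × α → ℝ≥0∞ := K.indicator fun p => G p.1 ^ s with hf1
  set f2 : α × α → ℝ≥0∞ := K.indicator fun p => G p.2 ^ s with hf2
  have hm0 : Measurable f0 := (hGs.comp measurable_fst).mul (hGs.comp measurable_snd)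
  have hm1 : Measurable f1 := (hGs.comp measurable_fst).indicator hK
  have hm2 : Measurable f2 := (hGs.comp measurable_snd).indicator hK
  have hH := ENNReal.lintegral_prod_norm_pow_le (μ := μ.prod μ) (Finset.univ : Finset (Fin 3))
    (f := ![f0, f1, f2]) (p := ![1 - 2 / q, 1 / q, 1 / q])
    (by
      intro i _
      fin_cases i
      · exact hm0.aemeasurable
      · exact hm1.aemeasurable
      · exact hm2.aemeasurable)
    (by
      rw [Fin.sum_univ_three]
      change 1 - 2 / q + 1 / q + 1 / q = 1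
      ring)
    (by
      intro i _
      fin_cases i
      · simpa using hq2
      · simpa using hq0.le
      · simpa using hq0.le)
  simp only [Fin.prod_univ_three, Matrix.cons_val_zero, Matrix.cons_val_one, Matrix.cons_val_two,
    Matrix.head_cons, Matrix.tail_cons, Matrix.cons_val] at hH
  have hI0 : ∫⁻ p, f0 p ∂(μ.prod μ) = I * I := by
    rw [lintegral_prod _ hm0.aemeasurable]
    simp only [hf0]
    simp_rw [lintegral_const_mul _ hGs]
    rw [lintegral_mul_const _ hGs]
  have hI1 : ∫⁻ p, f1 p ∂(μ.prod μ) ≤ A * I := by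
    rw [lintegral_prod _ hm1.aemeasurable, hI, ← lintegral_const_mul _ hGs]
    apply lintegral_mono
    intro x
    have e1 : ∀ y, f1 (x, y) = (Prod.mk x ⁻¹' K).indicator (fun _ => G x ^ s) y := by
      intro y
      by_cases hxy : (x, y) ∈ K
      · rw [hf1, indicator_of_mem hxy, indicator_of_mem (show y ∈ Prod.mk x ⁻¹' K from hxy)]
      · rw [hf1, indicator_of_notMem hxy,
          indicator_of_notMem (show y ∉ Prod.mk x ⁻¹' K from hxy)]
    simp_rw [e1]
    rw [lintegral_indicator (hK.preimage measurable_prodMk_left), setLIntegral_const, mul_comm]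
    gcongr
    exact hA x
  have hI2 : ∫⁻ p, f2 p ∂(μ.prod μ) ≤ A * I := by
    rw [lintegral_prod_symm _ hm2.aemeasurable, hI, ← lintegral_const_mul _ hGs]
    apply lintegral_mono
    intro y
    have e1 : ∀ x, f2 (x, y) = ((fun x => (x, y)) ⁻¹' K).indicator (fun _ => G y ^ s) x := by
      intro x
      by_cases hxy : (x, y) ∈ K
      · rw [hf2, indicator_of_mem hxy, indicator_of_mem (show x ∈ (fun x => (x, y)) ⁻¹' K from hxy)]
      · rw [hf2, indicator_of_notMem hxy,
          indicator_of_notMem (show x ∉ (fun x => (x, y)) ⁻¹' K from hxy)]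
    simp_rw [e1]
    rw [lintegral_indicator (hK.preimage measurable_prodMk_right), setLIntegral_const, mul_comm]
    have h2 : ((fun x => (x, y)) ⁻¹' K) ⊆ {x | (y, x) ∈ K} := fun x hx => hsymm _ _ hx
    have h3 := (measure_mono h2).trans (hA y)
    gcongr
  have e0 : ∀ p : α × α, K.indicator (fun p : α × α => G p.1 * G p.2) p ≤
      f0 p ^ (1 - 2 / q) * f1 p ^ (1 / q) * f2 p ^ (1 / q) := by
    intro p
    by_cases hp : p ∈ K
    · simp only [hf1, hf2, indicator_of_mem hp, hf0]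
      have hx : ∀ a : ℝ≥0∞, (a ^ s) ^ (1 - 2 / q) * (a ^ s) ^ (1 / q) = a := by
        intro a
        rw [← ENNReal.rpow_mul, ← ENNReal.rpow_mul, ← ENNReal.rpow_add_of_nonneg]
        · have : s * (1 - 2 / q) + s * (1 / q) = 1 := by
            have h1 : s * (1 / s + 1 / q) = s := by rw [hsq, mul_one]
            have h2 : s * (1 / s) = 1 := by field_simp
            have h3 : s * (1 / q) = s - 1 := by linarith
            have h4 : s * (1 - 2 / q) = s - 2 * (s * (1 / q)) := by ring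
            rw [h4, h3]; ring
          rw [this, ENNReal.rpow_one]
        · exact mul_nonneg hs0.le (by linarith)
        · positivity
      rw [ENNReal.mul_rpow_of_nonneg _ _ (by linarith)]
      apply le_of_eq
      calc G p.1 * G p.2 = ((G p.1 ^ s) ^ (1 - 2 / q) * (G p.1 ^ s) ^ (1 / q)) *
            ((G p.2 ^ s) ^ (1 - 2 / q) * (G p.2 ^ s) ^ (1 / q)) := by rw [hx, hx]
        _ = _ := by ring
    · rw [indicator_of_notMem hp]
      exact zero_le
  have hmK : Measurable (K.indicator (fun p : α × α => G p.1 * G p.2)) :=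
    ((hG.comp measurable_fst).mul (hG.comp measurable_snd)).indicator hK
  rw [← lintegral_prod _ hmK.aemeasurable]
  refine (lintegral_mono e0).trans (hH.trans ?_)
  rw [hI0]
  calc (I * I) ^ (1 - 2 / q) * (∫⁻ p, f1 p ∂(μ.prod μ)) ^ (1 / q) *
        (∫⁻ p, f2 p ∂(μ.prod μ)) ^ (1 / q)
      ≤ (I * I) ^ (1 - 2 / q) * (A * I) ^ (1 / q) * (A * I) ^ (1 / q) := by
        gcongr
    _ = A ^ (2 / q) * I ^ (2 / s) := by
        have h1q : (0 : ℝ) ≤ 1 / q := by positivity
        rw [ENNReal.mul_rpow_of_nonneg _ _ (by linarith), ENNReal.mul_rpow_of_nonneg _ _ h1q]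
        have e2 : 2 / q = 1 / q + 1 / q := by ring
        have e3 : 2 / s = (1 - 2 / q) + (1 - 2 / q) + 1 / q + 1 / q := by
          have : 2 / s = 2 * (1 / s) := by ring
          rw [this]
          have : 1 / s = 1 - 1 / q := by linarith
          rw [this]; ring
        rw [e3, ENNReal.rpow_add_of_nonneg _ _ (by linarith) h1q,
          ENNReal.rpow_add_of_nonneg _ _ (by linarith) h1q,
          ENNReal.rpow_add_of_nonneg _ _ (by linarith) (by linarith)]
        conv_rhs => rw [e2, ENNReal.rpow_add_of_nonneg _ _ h1q h1q]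
        ring

/-- dyadic decomposition of the kernel -/
lemma dyad {d : ℝ} (hd : 0 < d) {t : ℝ} (ht : 0 ≤ t) {m : ℕ} (htm : t ≤ 2 ^ m) :
    ENNReal.ofReal ((1 + t) ^ (-d)) ≤ ∑ i ∈ Finset.range (m + 1),
      ENNReal.ofReal (2 ^ d * (2 ^ i : ℝ) ^ (-d)) * (if t ≤ 2 ^ i then 1 else 0) := by
  classical
  have hex : ∃ i : ℕ, t ≤ 2 ^ i := ⟨m, htm⟩
  set i := Nat.find hex with hi
  have hi1 : t ≤ 2 ^ i := Nat.find_spec hex
  have him : i ≤ m := Nat.find_min' hex htm
  have h1 : ENNReal.ofReal ((1 + t) ^ (-d)) ≤ ENNReal.ofReal (2 ^ d * (2 ^ i : ℝ) ^ (-d)) *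
      (if t ≤ 2 ^ i then 1 else 0) := by
    rw [if_pos hi1, mul_one]
    apply ENNReal.ofReal_le_ofReal
    rcases Nat.eq_zero_or_pos i with h0 | h0
    · rw [h0, pow_zero, Real.one_rpow, mul_one]
      have h2 : (1 + t) ^ (-d) ≤ 1 :=
        Real.rpow_le_one_of_one_le_of_nonpos (by linarith) (by linarith)
      have h3 : (1 : ℝ) ≤ 2 ^ d := Real.one_le_rpow (by norm_num) hd.le
      linarith
    · have h2 : ¬ t ≤ 2 ^ (i - 1) := Nat.find_min hex (by omega)
      rw [not_le] at h2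
      have h3 : (2 ^ (i - 1) : ℝ) = 2 ^ i / 2 := by
        rw [eq_div_iff (by norm_num), ← pow_succ]
        congr 1; omega
      have h4 : (2 ^ i : ℝ) / 2 ≤ 1 + t := by rw [← h3]; linarith
      have h5 : (1 + t) ^ (-d) ≤ ((2 ^ i : ℝ) / 2) ^ (-d) :=
        Real.rpow_le_rpow_of_nonpos (by positivity) h4 (by linarith)
      refine h5.trans (le_of_eq ?_)
      rw [Real.div_rpow (by positivity) (by norm_num), Real.rpow_neg (by norm_num : (0:ℝ) ≤ 2)]
      field_simp
  refine h1.trans ?_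
  exact Finset.single_le_sum (f := fun i => ENNReal.ofReal (2 ^ d * (2 ^ i : ℝ) ^ (-d)) *
    (if t ≤ 2 ^ i then (1 : ℝ≥0∞) else 0)) (fun _ _ => zero_le)
    (Finset.mem_range.2 (by omega))

/-- the measure is at most `β`-dimensional at scales `≥ 1` -/
def Dm (β : ℝ) (μ : Measure (E n)) : Prop :=
  ∀ (x : E n) (r : ℝ), 1 ≤ r → μ (closedBall x r) ≤ ENNReal.ofReal (r ^ β)

/-- local estimate for the quadratic form -/
lemma quad (hn : 2 ≤ n) {β : ℝ} {s q : ℝ} (hs : 1 < s) (hsq : 1 / s + 1 / q = 1) (hs2 : s ≤ 2)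
    {μ : Measure (E n)} [IsFiniteMeasure μ] (hμ : Dm β μ) {R : ℝ} (hR0 : 0 < R) (hR1 : R ≤ 1)
    {c : ℝ} (hc : 0 ≤ c) {u : E n} {L : ℝ} {m : ℕ} (hm : R * (2 * L) ≤ 2 ^ m) {g : E n → ℂ}
    (hg : Measurable g) (hgL : ∀ x, L < ‖x - u‖ → g x = 0) :
    ∫⁻ x, ∫⁻ x', ‖g x‖ₑ * ‖g x'‖ₑ *
      ENNReal.ofReal (c * (1 + R * ‖x - x'‖) ^ (-dd n)) ∂μ ∂μ ≤
    ENNReal.ofReal (c * (2 ^ dd n * R ^ (-(2 * β / q)) *
      ∑ i ∈ Finset.range (m + 1), ((2 : ℝ) ^ i) ^ (2 * β / q - dd n))) *
      (∫⁻ x, ‖g x‖ₑ ^ s ∂μ) ^ (2 / s) := by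
  classical
  have hd := dd_pos hn
  have hs0 : 0 < s := by linarith
  have hq0 : 0 < q := by
    have h1 : 1 / s < 1 := by rw [div_lt_one hs0]; exact hs
    have h2 : 0 < 1 / q := by linarith
    exact one_div_pos.1 h2
  set K : ℕ → Set (E n × E n) := fun i => {p | R * ‖p.1 - p.2‖ ≤ 2 ^ i} with hK
  have hKm : ∀ i, MeasurableSet (K i) := fun i =>
    measurableSet_le (by fun_prop) measurable_const
  set G : E n → ℝ≥0∞ := fun x => ‖g x‖ₑ with hG
  have hGm : Measurable G := hg.enorm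
  have hpt : ∀ x x' : E n, ‖g x‖ₑ * ‖g x'‖ₑ *
      ENNReal.ofReal (c * (1 + R * ‖x - x'‖) ^ (-dd n)) ≤
      ∑ i ∈ Finset.range (m + 1), ENNReal.ofReal (c * (2 ^ dd n * (2 ^ i : ℝ) ^ (-dd n))) *
        (K i).indicator (fun p : E n × E n => G p.1 * G p.2) (x, x') := by
    intro x x'
    by_cases hx : g x = 0
    · rw [hx]; simp
    by_cases hx' : g x' = 0
    · rw [hx']; simp
    have h1 : ‖x - u‖ ≤ L := by
      by_contra h; exact hx (hgL x (not_le.1 h))
    have h2 : ‖x' - u‖ ≤ L := by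
      by_contra h; exact hx' (hgL x' (not_le.1 h))
    have h3 : ‖x - x'‖ ≤ 2 * L := by
      calc ‖x - x'‖ = ‖(x - u) - (x' - u)‖ := by congr 1; abel
        _ ≤ ‖x - u‖ + ‖x' - u‖ := norm_sub_le _ _
        _ ≤ 2 * L := by linarith
    have h4 : R * ‖x - x'‖ ≤ 2 ^ m := (mul_le_mul_of_nonneg_left h3 hR0.le).trans hm
    have h5 := dyad hd (by positivity : 0 ≤ R * ‖x - x'‖) h4
    rw [ENNReal.ofReal_mul hc]
    calc ‖g x‖ₑ * ‖g x'‖ₑ * (ENNReal.ofReal c * ENNReal.ofReal ((1 + R * ‖x - x'‖) ^ (-dd n)))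
        ≤ ‖g x‖ₑ * ‖g x'‖ₑ * (ENNReal.ofReal c * ∑ i ∈ Finset.range (m + 1),
          ENNReal.ofReal (2 ^ dd n * (2 ^ i : ℝ) ^ (-dd n)) *
          (if R * ‖x - x'‖ ≤ 2 ^ i then 1 else 0)) := by gcongr
      _ = _ := by
        rw [Finset.mul_sum, Finset.mul_sum]
        apply Finset.sum_congr rfl
        intro i _
        rw [ENNReal.ofReal_mul hc]
        by_cases h6 : R * ‖x - x'‖ ≤ 2 ^ i
        · rw [if_pos h6, indicator_of_mem (show (x, x') ∈ K i from h6)]
          simp only [hG]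
          ring
        · rw [if_neg h6, indicator_of_notMem (show (x, x') ∉ K i from h6)]
          simp
  have hY : ∀ i : ℕ, ∫⁻ x, ∫⁻ x', (K i).indicator (fun p : E n × E n => G p.1 * G p.2) (x, x')
      ∂μ ∂μ ≤ ENNReal.ofReal (((2 ^ i / R : ℝ) ^ β) ^ (2 / q)) *
      (∫⁻ x, ‖g x‖ₑ ^ s ∂μ) ^ (2 / s) := by
    intro i
    have h2i : (1 : ℝ) ≤ 2 ^ i := one_le_pow₀ (by norm_num)
    have h1 := young (μ := μ) hGm (hKm i) (fun x y hxy => by
      simp only [hK, mem_ofPred_eq] at hxy ⊢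
      rwa [norm_sub_rev]) (A := ENNReal.ofReal ((2 ^ i / R : ℝ) ^ β)) (fun x => by
        have h2 : {y | (x, y) ∈ K i} ⊆ closedBall x (2 ^ i / R) := by
          intro y hy
          simp only [hK, mem_ofPred_eq] at hy
          rw [mem_closedBall, dist_comm, dist_eq_norm, le_div_iff₀ hR0]
          linarith
        refine (measure_mono h2).trans (hμ x _ ?_)
        rw [le_div_iff₀ hR0]; linarith) hs hsq hs2
    refine h1.trans (le_of_eq ?_)
    rw [ENNReal.ofReal_rpow_of_nonneg (by positivity) (by positivity)]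
  have hmK : ∀ i, Measurable (fun p : E n × E n =>
      (K i).indicator (fun p : E n × E n => G p.1 * G p.2) p) := fun i =>
    ((hGm.comp measurable_fst).mul (hGm.comp measurable_snd)).indicator (hKm i)
  calc ∫⁻ x, ∫⁻ x', ‖g x‖ₑ * ‖g x'‖ₑ *
        ENNReal.ofReal (c * (1 + R * ‖x - x'‖) ^ (-dd n)) ∂μ ∂μ
      ≤ ∫⁻ x, ∫⁻ x', ∑ i ∈ Finset.range (m + 1),
        ENNReal.ofReal (c * (2 ^ dd n * (2 ^ i : ℝ) ^ (-dd n))) *
        (K i).indicator (fun p : E n × E n => G p.1 * G p.2) (x, x') ∂μ ∂μ :=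
        lintegral_mono fun x => lintegral_mono fun x' => hpt x x'
    _ = ∑ i ∈ Finset.range (m + 1), ENNReal.ofReal (c * (2 ^ dd n * (2 ^ i : ℝ) ^ (-dd n))) *
        ∫⁻ x, ∫⁻ x', (K i).indicator (fun p : E n × E n => G p.1 * G p.2) (x, x') ∂μ ∂μ := by
        have h1 : ∀ x : E n, ∫⁻ x', ∑ i ∈ Finset.range (m + 1),
            ENNReal.ofReal (c * (2 ^ dd n * (2 ^ i : ℝ) ^ (-dd n))) *
            (K i).indicator (fun p : E n × E n => G p.1 * G p.2) (x, x') ∂μ =
            ∑ i ∈ Finset.range (m + 1), ENNReal.ofReal (c * (2 ^ dd n * (2 ^ i : ℝ) ^ (-dd n))) *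
            ∫⁻ x', (K i).indicator (fun p : E n × E n => G p.1 * G p.2) (x, x') ∂μ := by
          intro x
          rw [lintegral_finsetSum]
          · apply Finset.sum_congr rfl
            intro i _
            have hk : Measurable (fun x' : E n =>
                (K i).indicator (fun p : E n × E n => G p.1 * G p.2) (x, x')) :=
              (hmK i).comp measurable_prodMk_left
            rw [lintegral_const_mul _ hk]
          · intro i _
            exact ((hmK i).comp measurable_prodMk_left).const_mul _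
        simp_rw [h1]
        rw [lintegral_finsetSum]
        · apply Finset.sum_congr rfl
          intro i _
          rw [lintegral_const_mul _ (hmK i).lintegral_prod_right]
        · intro i _
          exact ((hmK i).lintegral_prod_right).const_mul _
    _ ≤ ∑ i ∈ Finset.range (m + 1), ENNReal.ofReal (c * (2 ^ dd n * (2 ^ i : ℝ) ^ (-dd n))) *
        (ENNReal.ofReal (((2 ^ i / R : ℝ) ^ β) ^ (2 / q)) *
        (∫⁻ x, ‖g x‖ₑ ^ s ∂μ) ^ (2 / s)) := by
        gcongr with i _
        exact hY i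
    _ = _ := by
        simp_rw [← mul_assoc (ENNReal.ofReal _) (ENNReal.ofReal _) _]
        rw [← Finset.sum_mul]
        congr 1
        rw [← mul_assoc, Finset.mul_sum, ENNReal.ofReal_sum_of_nonneg (fun i _ => by positivity)]
        apply Finset.sum_congr rfl
        intro i _
        rw [← ENNReal.ofReal_mul (by positivity)]
        congr 1
        have h1 : ((2 ^ i / R : ℝ) ^ β) ^ (2 / q) = (2 ^ i : ℝ) ^ (2 * β / q) * R ^ (-(2 * β / q)) := by
          rw [← Real.rpow_mul (by positivity), Real.div_rpow (by positivity) hR0.le,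
            Real.rpow_neg hR0.le]
          have : β * (2 / q) = 2 * β / q := by ring
          rw [this]
          field_simp
        rw [h1, sub_eq_add_neg, Real.rpow_add (by positivity)]
        ring

end Pool.Agent.W774.TB
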